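import Pool.Agent.Y855.A6

/-!
The numbers `2 ^ s m ^ r`, for `m` in a set which is multiplicatively independent together with `2`.
-/

set_option autoImplicit false

open Finset

namespace Pool.Agent.Y892.TB

open Pool.Agent.Y855

/-- multiplicative independence of `M` together with `2` -/
def Ind2 (M : Finset ℕ) : Prop :=
  ∀ (a : ℤ) (c : ℕ → ℤ), (2 : ℚ) ^ a * ∏ m ∈ M, (m : ℚ) ^ (c m) = 1 → ∀ m ∈ M, c m = 0

/-- the numbers `2 ^ s m ^ r` -/
def val (m s r : ℕ) : ℤ := 2 ^ s * (m : ℤ) ^ r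

theorem Ind2.subset {I M : Finset ℕ} (h : Ind2 M) (hIM : I ⊆ M) : Ind2 I := by
  classical
  intro a c hc m hm
  have h1 := h a (fun n => if n ∈ I then c n else 0) (by
    rw [← hc, ← prod_subset hIM]
    · congr 1
      apply prod_congr rfl
      intro n hn
      rw [if_pos hn]
    · intro n _ hn
      rw [if_neg hn, zpow_zero]) m (hIM hm)
  rw [if_pos hm] at h1
  exact h1

theorem val_ne_zero {m s r : ℕ} (hm : 1 ≤ m) : val m s r ≠ 0 := by
  unfold val
  have : (m : ℤ) ≠ 0 := by exact_mod_cast (by omega : m ≠ 0)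
  positivity

theorem val_cast (m s r : ℕ) : ((val m s r : ℤ) : ℚ) = (2 : ℚ) ^ s * (m : ℚ) ^ r := by
  unfold val
  push_cast
  rfl

theorem val_inj {M : Finset ℕ} (hM : Ind2 M) (h1 : ∀ m ∈ M, 1 ≤ m) {s r : ℕ → ℕ}
    (hr : ∀ m ∈ M, 1 ≤ r m) : Set.InjOn (fun m => val m (s m) (r m)) (M : Set ℕ) := by
  classical
  intro m hm m' hm' h
  by_contra hne
  rw [mem_coe] at hm hm'
  have hm0 : (m : ℚ) ≠ 0 := by exact_mod_cast (by have := h1 m hm; omega : m ≠ 0)
  have hm0' : (m' : ℚ) ≠ 0 := by exact_mod_cast (by have := h1 m' hm'; omega : m' ≠ 0)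
  have e : (2 : ℚ) ^ (s m) * (m : ℚ) ^ (r m) = (2 : ℚ) ^ (s m') * (m' : ℚ) ^ (r m') := by
    rw [← val_cast, ← val_cast]
    exact_mod_cast h
  have h2 := hM ((s m : ℤ) - (s m' : ℤ))
    (fun n => if n = m then (r m : ℤ) else if n = m' then -(r m' : ℤ) else 0) (by
      have e1 : ∏ n ∈ M, (n : ℚ) ^ (if n = m then (r m : ℤ) else if n = m' then -(r m' : ℤ) else 0) =
          (m : ℚ) ^ (r m : ℤ) * (m' : ℚ) ^ (-(r m' : ℤ)) := by
        have hsub : ({m, m'} : Finset ℕ) ⊆ M := by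
          intro n hn
          rw [mem_insert, mem_singleton] at hn
          rcases hn with rfl | rfl <;> assumption
        rw [← prod_subset hsub]
        · rw [prod_pair hne, if_pos rfl, if_neg (fun h' => hne h'.symm), if_pos rfl]
        · intro n _ hn
          rw [mem_insert, mem_singleton, not_or] at hn
          rw [if_neg hn.1, if_neg hn.2, zpow_zero]
      rw [e1, zpow_sub₀ (by norm_num), zpow_neg, zpow_natCast, zpow_natCast, zpow_natCast,
        zpow_natCast]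
      have h3 : (2 : ℚ) ^ (s m') ≠ 0 := by positivity
      have h4 : (m' : ℚ) ^ (r m') ≠ 0 := pow_ne_zero _ hm0'
      field_simp
      exact e) m hm
  simp only [if_true] at h2
  have := hr m hm
  omega

theorem zpow_sum' {ι : Type} (s : Finset ι) (f : ι → ℤ) :
    (2 : ℚ) ^ (∑ i ∈ s, f i) = ∏ i ∈ s, (2 : ℚ) ^ f i := by
  classical
  induction s using Finset.induction_on with
  | empty => simp
  | insert a s ha ih => rw [sum_insert ha, prod_insert ha, zpow_add₀ (by norm_num), ih]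

theorem MI_image {M : Finset ℕ} (hM : Ind2 M) (h1 : ∀ m ∈ M, 1 ≤ m) {s r : ℕ → ℕ}
    (hr : ∀ m ∈ M, 1 ≤ r m) : MI (M.image (fun m => val m (s m) (r m))) := by
  classical
  intro c hc n hn
  rw [prod_image (val_inj hM h1 hr)] at hc
  rw [mem_image] at hn
  obtain ⟨m, hm, rfl⟩ := hn
  have h2 : (2 : ℚ) ^ (∑ m ∈ M, (s m : ℤ) * c (val m (s m) (r m))) *
      ∏ m ∈ M, (m : ℚ) ^ ((r m : ℤ) * c (val m (s m) (r m))) = 1 := by
    rw [← hc, zpow_sum', ← prod_mul_distrib]
    apply prod_congr rfl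
    intro n _
    rw [val_cast, mul_zpow, ← zpow_natCast, ← zpow_natCast, ← zpow_mul, ← zpow_mul]
  have h3 := hM _ (fun m => (r m : ℤ) * c (val m (s m) (r m))) h2 m hm
  have h4 : (r m : ℤ) ≠ 0 := by have := hr m hm; omega
  rcases mul_eq_zero.1 h3 with h | h
  · exact absurd h h4
  · exact h

theorem card_image {M : Finset ℕ} (hM : Ind2 M) (h1 : ∀ m ∈ M, 1 ≤ m) {s r : ℕ → ℕ}
    (hr : ∀ m ∈ M, 1 ≤ r m) : (M.image (fun m => val m (s m) (r m))).card = M.card :=
  card_image_of_injOn (val_inj hM h1 hr)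

end Pool.Agent.Y892.TB
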