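import Pool.Agent.Y892.TB.A1

/-!
The exceptional primes: many of the numbers `2 ^ s m ^ r` are `l`-th power residues, `l > z`.
-/

set_option autoImplicit false

open Finset

namespace Pool.Agent.Y892.TB

open Pool.Agent.Y855

open Classical in
/-- the `m ∈ M` such that one of the numbers `2 ^ s m ^ r` is an `l`-th power residue modulo `p` -/
noncomputable def BadAt (M : Finset ℕ) (R p l : ℕ) : Finset ℕ :=
  M.filter (fun m => ∃ s r : ℕ, s ≤ R ∧ 1 ≤ r ∧ r ≤ R ∧
    ((val m s r : ℤ) : ZMod p) ^ ((p - 1) / l) = 1)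

open Classical in
/-- the exceptional primes -/
noncomputable def Ex (x z k R : ℕ) (M : Finset ℕ) : Finset ℕ :=
  (Icc 1 x).filter (fun p => p.Prime ∧ (∀ m ∈ M, ¬ p ∣ 2 * m) ∧ ∃ l : ℕ, l.Prime ∧ l ∣ p - 1 ∧
    z < l ∧ k ≤ (BadAt M R p l).card)

theorem not_dvd_val {p m s r : ℕ} (hp : p.Prime) (h : ¬ p ∣ 2 * m) : ¬ (p : ℤ) ∣ val m s r := by
  intro hd
  apply h
  unfold val at hd
  have hpi : Prime (p : ℤ) := Nat.prime_iff_prime_int.1 hp
  rcases hpi.dvd_or_dvd hd with h1 | h1
  · have h2 := hpi.dvd_of_dvd_pow h1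
    have h3 : p ∣ 2 := by exact_mod_cast h2
    exact dvd_mul_of_dvd_left h3 m
  · have h2 := hpi.dvd_of_dvd_pow h1
    have h3 : p ∣ m := by exact_mod_cast h2
    exact dvd_mul_of_dvd_right h3 2

theorem Ex_card (x z k R e A : ℕ) (M : Finset ℕ) (hM : Ind2 M) (h1 : ∀ m ∈ M, 1 ≤ m)
    (he : ∀ m ∈ M, m ≤ 2 ^ e) (hA : x ≤ z * A ^ k) :
    (Ex x z k R M).card ≤ (M.card * ((R + 1) * R)) ^ k *
      ((2 * A + 1) ^ k * (1 + (R * (e + 1) + 1) * (k * A))) := by
  classical
  -- all values
  set V : Finset ℤ := (M ×ˢ (range (R + 1) ×ˢ Icc 1 R)).image (fun t => val t.1 t.2.1 t.2.2) with hV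
  have hVc : V.card ≤ M.card * ((R + 1) * R) := by
    refine card_image_le.trans ?_
    rw [card_product, card_product, card_range, Nat.card_Icc, Nat.add_sub_cancel]
  set T : Finset ℤ → Finset ℕ := fun J => (Ex x z k R M).filter (fun p =>
    (∀ n ∈ J, ¬ (p : ℤ) ∣ n) ∧
    ∃ k' : ℕ, 0 < k' ∧ k' < A ^ k ∧ ∀ n ∈ J, (n : ZMod p) ^ k' = 1) with hT
  have hsub : Ex x z k R M ⊆ ((V.powersetCard k).filter (fun J => MI J)).biUnion T := by
    intro p hp
    have hp' := hp
    unfold Ex at hp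
    rw [mem_filter, mem_Icc] at hp
    obtain ⟨⟨hp1, hpx⟩, hpp, hpM, l, hl, hlp, hzl, hcard⟩ := hp
    obtain ⟨I, hI, hIc⟩ := exists_subset_card_eq hcard
    have hch : ∀ m : ℕ, ∃ s r : ℕ, m ∈ I → s ≤ R ∧ 1 ≤ r ∧ r ≤ R ∧
        ((val m s r : ℤ) : ZMod p) ^ ((p - 1) / l) = 1 := by
      intro m
      by_cases hm : m ∈ I
      · have h2 := hI hm
        unfold BadAt at h2
        rw [mem_filter] at h2
        obtain ⟨-, s, r, h3⟩ := h2
        exact ⟨s, r, fun _ => h3⟩
      · exact ⟨0, 0, fun h => absurd h hm⟩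
    choose s r hsr using hch
    have hIM : I ⊆ M := hI.trans (filter_subset _ _)
    have hI2 : Ind2 I := hM.subset hIM
    have hI1 : ∀ m ∈ I, 1 ≤ m := fun m hm => h1 m (hIM hm)
    have hIr : ∀ m ∈ I, 1 ≤ r m := fun m hm => (hsr m hm).2.1
    rw [mem_biUnion]
    refine ⟨I.image (fun m => val m (s m) (r m)), ?_, ?_⟩
    · rw [mem_filter, mem_powersetCard]
      refine ⟨⟨?_, ?_⟩, MI_image hI2 hI1 hIr⟩
      · intro n hn
        rw [mem_image] at hn
        obtain ⟨m, hm, rfl⟩ := hn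
        rw [hV, mem_image]
        refine ⟨(m, (s m, r m)), ?_, rfl⟩
        rw [mem_product, mem_product, mem_range, mem_Icc]
        obtain ⟨h3, h4, h5, -⟩ := hsr m hm
        exact ⟨hIM hm, by simp only; omega, h4, h5⟩
      · rw [card_image hI2 hI1 hIr, hIc]
    · simp only [hT]
      rw [mem_filter]
      have hp0 : 0 < p - 1 := by have := hpp.two_le; omega
      refine ⟨hp', ?_, (p - 1) / l, ?_, ?_, ?_⟩
      · intro n hn
        rw [mem_image] at hn
        obtain ⟨m, hm, rfl⟩ := hn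
        exact not_dvd_val hpp (hpM m (hIM hm))
      · exact Nat.div_pos (Nat.le_of_dvd hp0 hlp) hl.pos
      · by_contra hcon
        push Not at hcon
        have h2 : (p - 1) / l * l = p - 1 := Nat.div_mul_cancel hlp
        have h3 : A ^ k * (z + 1) ≤ (p - 1) / l * l := Nat.mul_le_mul hcon hzl
        have h4 : A ^ k * (z + 1) = z * A ^ k + A ^ k := by ring
        omega
      · intro n hn
        rw [mem_image] at hn
        obtain ⟨m, hm, rfl⟩ := hn
        exact (hsr m hm).2.2.2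
  have hVH : ∀ n ∈ V, n ≠ 0 ∧ n.natAbs ≤ 2 ^ (R * (e + 1)) := by
    intro n hn
    rw [hV, mem_image] at hn
    obtain ⟨⟨m, s, r⟩, ht, rfl⟩ := hn
    rw [mem_product, mem_product, mem_range, mem_Icc] at ht
    obtain ⟨hm, hs, hr1, hr2⟩ := ht
    simp only at hm hs hr1 hr2 ⊢
    refine ⟨val_ne_zero (h1 m hm), ?_⟩
    unfold val
    rw [Int.natAbs_mul, Int.natAbs_pow, Int.natAbs_pow, Int.natAbs_natCast]
    have e2 : (2 : ℤ).natAbs = 2 := rfl
    rw [e2]
    calc 2 ^ s * m ^ r ≤ 2 ^ R * (2 ^ e) ^ R := by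
          apply Nat.mul_le_mul
          · exact Nat.pow_le_pow_right (by norm_num) (by omega)
          · exact (Nat.pow_le_pow_left (he m hm) r).trans
              (Nat.pow_le_pow_right (by positivity) hr2)
      _ = 2 ^ (R * (e + 1)) := by
          rw [← pow_mul, ← pow_add]
          congr 1
          ring
  refine (card_le_card hsub).trans (card_biUnion_le.trans ?_)
  calc ∑ J ∈ (V.powersetCard k).filter (fun J => MI J), (T J).card
      ≤ ∑ _J ∈ (V.powersetCard k).filter (fun J => MI J),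
        ((2 * A + 1) ^ k * (1 + (R * (e + 1) + 1) * (k * A))) := by
        apply sum_le_sum
        intro J hJ
        rw [mem_filter, mem_powersetCard] at hJ
        have h2 := rank_one J (fun n hn => (hVH n (hJ.1.1 hn)).1) hJ.2 (2 ^ (R * (e + 1))) A
          Nat.one_le_two_pow (fun n hn => (hVH n (hJ.1.1 hn)).2) (T J) (by
            intro p hp
            simp only [hT] at hp
            rw [mem_filter] at hp
            obtain ⟨hp1, hp2, hp3⟩ := hp
            unfold Ex at hp1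
            rw [mem_filter] at hp1
            rw [hJ.1.2]
            exact ⟨hp1.2.1, hp2, hp3⟩)
        rw [hJ.1.2, Nat.log_pow (by norm_num)] at h2
        exact h2
    _ = ((V.powersetCard k).filter (fun J => MI J)).card *
        ((2 * A + 1) ^ k * (1 + (R * (e + 1) + 1) * (k * A))) := by
        rw [sum_const, smul_eq_mul]
    _ ≤ V.card ^ k * ((2 * A + 1) ^ k * (1 + (R * (e + 1) + 1) * (k * A))) := by
        apply Nat.mul_le_mul_right
        refine (card_filter_le _ _).trans ?_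
        rw [card_powersetCard]
        exact Nat.choose_le_pow _ _
    _ ≤ _ := Nat.mul_le_mul_right _ (Nat.pow_le_pow_left hVc k)

end Pool.Agent.Y892.TB
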