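import Pool.Agent.Y892.TB.A2

/-!
The number of the exceptional primes, real form.
-/

set_option autoImplicit false

open Finset Filter

namespace Pool.Agent.Y892.TB

open Pool.Agent.Y855

/-- the rank parameter -/
noncomputable def kk (c : ℝ) : ℕ := ⌈2 / c⌉₊

/-- the small exponent -/
noncomputable def ka (c : ℝ) : ℝ := c / (8 * (3 * kk c + 3))

theorem kk_pos {c : ℝ} (hc : 0 < c) : 1 ≤ kk c := by
  unfold kk
  exact Nat.one_le_iff_ne_zero.2 (Nat.ceil_pos.2 (by positivity)).ne'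

theorem ka_pos {c : ℝ} (hc : 0 < c) : 0 < ka c := by
  unfold ka
  positivity

theorem ka_le {c : ℝ} (hc : 0 < c) : (3 * (kk c : ℝ) + 3) * ka c = c / 8 := by
  unfold ka
  have : (0 : ℝ) < 3 * (kk c : ℝ) + 3 := by positivity
  field_simp

theorem ev_log_pow (κ : ℝ) (hκ : 0 < κ) : ∀ᶠ x : ℕ in atTop, ((Nat.log 2 x + 2 : ℕ) : ℝ) ≤ (x : ℝ) ^ κ := by
  have h1 : ∀ᶠ t : ℝ in atTop, ‖Real.log t‖ ≤ (1 / 4) * ‖t ^ κ‖ :=
    (isLittleO_log_rpow_atTop hκ).def (by norm_num)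
  have h2 : ∀ᶠ t : ℝ in atTop, (4 : ℝ) ≤ t ^ κ := (tendsto_rpow_atTop hκ).eventually_ge_atTop 4
  have h3 := tendsto_natCast_atTop_atTop (R := ℝ)
  filter_upwards [h3.eventually h1, h3.eventually h2, eventually_ge_atTop 1] with x h1 h2 h4
  have hx : (1 : ℝ) ≤ x := by exact_mod_cast h4
  rw [Real.norm_of_nonneg (Real.log_nonneg hx), Real.norm_of_nonneg (by positivity)] at h1
  have h5 : (Nat.log 2 x : ℝ) * Real.log 2 ≤ Real.log x := by
    have h6 : 2 ^ Nat.log 2 x ≤ x := Nat.pow_log_le_self 2 (by omega)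
    have h7 : ((2 : ℝ)) ^ Nat.log 2 x ≤ x := by exact_mod_cast h6
    have h8 := Real.log_le_log (by positivity) h7
    rwa [Real.log_pow] at h8
  have h6 := Real.log_two_gt_d9
  have h7 : (0 : ℝ) ≤ Nat.log 2 x := Nat.cast_nonneg _
  push_cast
  nlinarith

theorem Ex_real (c : ℝ) (hc : 0 < c) (hc1 : c < 1) : ∀ᶠ x : ℕ in atTop, ∀ M : Finset ℕ, Ind2 M →
    (∀ m ∈ M, 1 ≤ m ∧ (m : ℝ) ≤ (x : ℝ) ^ (ka c)) →
    ((Ex x ⌊(x : ℝ) ^ c⌋₊ (kk c) ⌊(x : ℝ) ^ (ka c)⌋₊ M).card : ℝ) ≤ (x : ℝ) ^ (1 - c / 4) := by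
  set k := kk c with hk
  set κ := ka c with hκ
  have hk1 : 1 ≤ k := kk_pos hc
  have hkr : (1 : ℝ) ≤ k := by exact_mod_cast hk1
  have hκ0 : 0 < κ := ka_pos hc
  have hκk : (3 * (k : ℝ) + 3) * κ = c / 8 := ka_le hc
  have hκc : κ ≤ c / 8 := by nlinarith
  have h3 := tendsto_natCast_atTop_atTop (R := ℝ)
  have e1 : ∀ᶠ x : ℕ in atTop, (2 : ℝ) ≤ (x : ℝ) ^ c :=
    h3.eventually ((tendsto_rpow_atTop hc).eventually_ge_atTop 2)
  have e2 : ∀ᶠ x : ℕ in atTop, 24 * (k : ℝ) * 12 ^ k ≤ (x : ℝ) ^ (c / 8) :=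
    h3.eventually ((tendsto_rpow_atTop (by positivity)).eventually_ge_atTop _)
  filter_upwards [e1, e2, ev_log_pow κ hκ0, eventually_ge_atTop 1] with x e1 e2 e3 hx1
  intro M hM hMb
  have hx : (1 : ℝ) ≤ x := by exact_mod_cast hx1
  have hx0 : (0 : ℝ) < x := by linarith
  set z := ⌊(x : ℝ) ^ c⌋₊ with hz
  set R := ⌊(x : ℝ) ^ κ⌋₊ with hR
  have hzr : (x : ℝ) ^ c / 2 ≤ z := by
    have : (x : ℝ) ^ c < z + 1 := Nat.lt_floor_add_one _
    linarith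
  set Y : ℝ := (x : ℝ) ^ κ with hY
  have hY1 : 1 ≤ Y := Real.one_le_rpow hx hκ0.le
  have hRY : (R : ℝ) ≤ Y := Nat.floor_le (by linarith)
  -- the size of `A`
  set y : ℝ := 2 * (x : ℝ) ^ (1 - c) with hy
  have hxc1 : 1 ≤ (x : ℝ) ^ (1 - c) := Real.one_le_rpow hx (by linarith)
  have hy1 : 1 ≤ y := by rw [hy]; linarith
  have hyk1 : 1 ≤ y ^ (1 / (k : ℝ)) := Real.one_le_rpow hy1 (by positivity)
  set A : ℕ := ⌈y ^ (1 / (k : ℝ))⌉₊ with hA
  have hA1 : y ^ (1 / (k : ℝ)) ≤ A := Nat.le_ceil _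
  have hA2 : (A : ℝ) ≤ 2 * y ^ (1 / (k : ℝ)) := by
    have : (A : ℝ) < y ^ (1 / (k : ℝ)) + 1 := Nat.ceil_lt_add_one (by linarith)
    linarith
  have hA0 : (1 : ℝ) ≤ A := hyk1.trans hA1
  have hykk : (y ^ (1 / (k : ℝ))) ^ k = y := by
    rw [← Real.rpow_natCast, ← Real.rpow_mul (by linarith)]
    rw [one_div, inv_mul_cancel₀ (by linarith), Real.rpow_one]
  have hAk : y ≤ (A : ℝ) ^ k := by
    rw [← hykk]
    exact pow_le_pow_left₀ (by linarith) hA1 k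
  have hcond : x ≤ z * A ^ k := by
    have h4 : (x : ℝ) ≤ z * (A : ℝ) ^ k := by
      calc (x : ℝ) = (x : ℝ) ^ c / 2 * y := by
            rw [hy]
            have : (x : ℝ) ^ c * (x : ℝ) ^ (1 - c) = x := by
              rw [← Real.rpow_add hx0, add_sub_cancel, Real.rpow_one]
            linear_combination -this
        _ ≤ z * (A : ℝ) ^ k := by gcongr
    exact_mod_cast h4
  -- `m ≤ 2 ^ e`
  have hme : ∀ m ∈ M, m ≤ 2 ^ (Nat.log 2 x + 1) := by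
    intro m hm
    have h4 : (m : ℝ) ≤ x := by
      refine (hMb m hm).2.trans ?_
      calc (x : ℝ) ^ κ ≤ (x : ℝ) ^ (1 : ℝ) := Real.rpow_le_rpow_of_exponent_le hx (by linarith)
        _ = x := Real.rpow_one _
    have h5 : m ≤ x := by exact_mod_cast h4
    exact h5.trans (Nat.lt_pow_succ_log_self (by norm_num) x).le
  have hcard := Ex_card x z k R (Nat.log 2 x + 1) A M hM (fun m hm => (hMb m hm).1) hme hcond
  have hMc : (M.card : ℝ) ≤ Y := by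
    have h4 : M ⊆ Icc 1 R := by
      intro m hm
      rw [mem_Icc]
      exact ⟨(hMb m hm).1, Nat.le_floor (hMb m hm).2⟩
    have h5 := card_le_card h4
    rw [Nat.card_Icc, Nat.add_sub_cancel] at h5
    exact le_trans (by exact_mod_cast h5) hRY
  have hcard' : ((Ex x z k R M).card : ℝ) ≤ ((M.card : ℝ) * (((R : ℝ) + 1) * R)) ^ k *
      ((2 * (A : ℝ) + 1) ^ k * (1 + ((R : ℝ) * ((Nat.log 2 x + 1 : ℕ) + 1) + 1) * (k * A))) := by
    exact_mod_cast hcard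
  have s1 : ((M.card : ℝ) * (((R : ℝ) + 1) * R)) ^ k ≤ 2 ^ k * (x : ℝ) ^ (3 * κ * k) := by
    have h4 : (M.card : ℝ) * (((R : ℝ) + 1) * R) ≤ 2 * Y ^ 3 := by
      have h5 : (R : ℝ) + 1 ≤ 2 * Y := by linarith
      calc (M.card : ℝ) * (((R : ℝ) + 1) * R) ≤ Y * ((2 * Y) * Y) := by gcongr
        _ = 2 * Y ^ 3 := by ring
    calc ((M.card : ℝ) * (((R : ℝ) + 1) * R)) ^ k ≤ (2 * Y ^ 3) ^ k :=
          pow_le_pow_left₀ (by positivity) h4 k
      _ = 2 ^ k * (x : ℝ) ^ (3 * κ * k) := by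
          rw [mul_pow, ← pow_mul, hY, ← Real.rpow_natCast ((x : ℝ) ^ κ), ← Real.rpow_mul hx0.le]
          congr 2
          push_cast
          ring
  have s2 : (2 * (A : ℝ) + 1) ^ k ≤ 6 ^ k * (2 * (x : ℝ) ^ (1 - c)) := by
    calc (2 * (A : ℝ) + 1) ^ k ≤ (6 * y ^ (1 / (k : ℝ))) ^ k := by
          apply pow_le_pow_left₀ (by positivity)
          linarith
      _ = 6 ^ k * (2 * (x : ℝ) ^ (1 - c)) := by rw [mul_pow, hykk]
  have s3 : (A : ℝ) ≤ 4 * (x : ℝ) ^ (c / 2) := by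
    have h4 : y ^ (1 / (k : ℝ)) ≤ 2 * (x : ℝ) ^ (c / 2) := by
      rw [hy, Real.mul_rpow (by norm_num) (by positivity)]
      have h5 : (2 : ℝ) ^ (1 / (k : ℝ)) ≤ 2 := by
        calc (2 : ℝ) ^ (1 / (k : ℝ)) ≤ 2 ^ (1 : ℝ) :=
              Real.rpow_le_rpow_of_exponent_le (by norm_num) (by
                rw [div_le_one (by linarith)]; exact hkr)
          _ = 2 := Real.rpow_one _
      have h6 : ((x : ℝ) ^ (1 - c)) ^ (1 / (k : ℝ)) ≤ (x : ℝ) ^ (c / 2) := by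
        rw [← Real.rpow_mul hx0.le]
        apply Real.rpow_le_rpow_of_exponent_le hx
        have h7 : 2 / c ≤ k := Nat.le_ceil _
        rw [mul_one_div, div_le_iff₀ (by linarith)]
        rw [div_le_iff₀ hc] at h7
        nlinarith
      exact mul_le_mul h5 h6 (by positivity) (by norm_num)
    linarith
  have s4 : 1 + ((R : ℝ) * ((Nat.log 2 x + 1 : ℕ) + 1) + 1) * (k * A) ≤
      12 * k * ((x : ℝ) ^ (2 * κ) * (x : ℝ) ^ (c / 2)) := by
    have h4 : (((Nat.log 2 x + 1 : ℕ) : ℝ) + 1) ≤ Y := by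
      have h5 := e3
      push_cast at h5 ⊢
      linarith
    have hYY : Y * Y = (x : ℝ) ^ (2 * κ) := by
      rw [hY, ← Real.rpow_add hx0]
      congr 1; ring
    have h5 : (R : ℝ) * ((Nat.log 2 x + 1 : ℕ) + 1) ≤ (x : ℝ) ^ (2 * κ) := by
      rw [← hYY]
      gcongr
    have h6 : 1 ≤ (x : ℝ) ^ (2 * κ) := Real.one_le_rpow hx (by positivity)
    have h7 : (1 : ℝ) ≤ k * A := by nlinarith
    calc 1 + ((R : ℝ) * ((Nat.log 2 x + 1 : ℕ) + 1) + 1) * (k * A)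
        ≤ (x : ℝ) ^ (2 * κ) * (k * A) + (2 * (x : ℝ) ^ (2 * κ)) * (k * A) := by
          have h8 : (1 : ℝ) ≤ (x : ℝ) ^ (2 * κ) * (k * A) := by nlinarith
          have h9 : ((R : ℝ) * ((Nat.log 2 x + 1 : ℕ) + 1) + 1) * (k * A) ≤
              (2 * (x : ℝ) ^ (2 * κ)) * (k * A) := by
            apply mul_le_mul_of_nonneg_right _ (by positivity)
            linarith
          linarith
      _ = 3 * k * ((x : ℝ) ^ (2 * κ) * A) := by ring
      _ ≤ 3 * k * ((x : ℝ) ^ (2 * κ) * (4 * (x : ℝ) ^ (c / 2))) := by gcongr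
      _ = _ := by ring
  calc ((Ex x z k R M).card : ℝ) ≤ _ := hcard'
    _ ≤ (2 ^ k * (x : ℝ) ^ (3 * κ * k)) * ((6 ^ k * (2 * (x : ℝ) ^ (1 - c))) *
        (12 * k * ((x : ℝ) ^ (2 * κ) * (x : ℝ) ^ (c / 2)))) :=
        mul_le_mul s1 (mul_le_mul s2 s4 (by positivity) (by positivity)) (by positivity)
          (by positivity)
    _ = (24 * k * 12 ^ k) * ((x : ℝ) ^ (3 * κ * k) * (x : ℝ) ^ (1 - c) * (x : ℝ) ^ (2 * κ) *
        (x : ℝ) ^ (c / 2)) := by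
        have : (12 : ℝ) ^ k = 2 ^ k * 6 ^ k := by rw [← mul_pow]; norm_num
        rw [this]; ring
    _ = (24 * k * 12 ^ k) * (x : ℝ) ^ (3 * κ * k + (1 - c) + 2 * κ + c / 2) := by
        rw [Real.rpow_add hx0, Real.rpow_add hx0, Real.rpow_add hx0]
    _ ≤ (x : ℝ) ^ (c / 8) * (x : ℝ) ^ (3 * κ * k + (1 - c) + 2 * κ + c / 2) :=
        mul_le_mul_of_nonneg_right e2 (by positivity)
    _ = (x : ℝ) ^ (c / 8 + (3 * κ * k + (1 - c) + 2 * κ + c / 2)) := by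
        rw [← Real.rpow_add hx0]
    _ ≤ (x : ℝ) ^ (1 - c / 4) := by
        apply Real.rpow_le_rpow_of_exponent_le hx
        nlinarith

end Pool.Agent.Y892.TB
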