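import Pool.Agent.Y855.A8

/-!
The number of the primes `p ≤ x`, `p ≡ 3 (mod 8)`, such that `p - 1` has no odd prime factor `≤ x ^ c`.
-/

set_option autoImplicit false

open Finset Filter

namespace Pool.Agent.Y892.TB

open Pool.Agent.Y855 Pool.Agent.H442R2.KF

/-- the sifted primes in the class `3` modulo `8` -/
def T8 (x z : ℕ) : Finset ℕ := NS x 8 3 (OP z)

theorem mem_T8 {x z p : ℕ} : p ∈ T8 x z ↔ (1 ≤ p ∧ p ≤ x) ∧ p.Prime ∧ p % 8 = 3 ∧
    ∀ q : ℕ, q.Prime → 3 ≤ q → q ≤ z → ¬ q ∣ p - 1 := by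
  unfold T8 NS
  rw [mem_filter, mem_Icc]
  have : p ≡ 3 [MOD 8] ↔ p % 8 = 3 := by
    unfold Nat.ModEq
    norm_num
  rw [this]
  constructor
  · rintro ⟨h1, h2, h3, h4⟩
    exact ⟨h1, h2, h3, fun q hq hq3 hqz => h4 q (mem_OP.2 ⟨hq, hq3, hqz⟩)⟩
  · rintro ⟨h1, h2, h3, h4⟩
    exact ⟨h1, h2, h3, fun q hq => h4 q (mem_OP.1 hq).1 (mem_OP.1 hq).2.1 (mem_OP.1 hq).2.2⟩

theorem T8_lower : ∃ c : ℝ, 0 < c ∧ c < 1 ∧ ∃ η : ℝ, 0 < η ∧ ∀ᶠ x : ℕ in atTop,
    η * ((x : ℝ) / (Real.log x) ^ 2) ≤ ((T8 x ⌊(x : ℝ) ^ c⌋₊).card : ℝ) := by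
  obtain ⟨B, hB, hsieve⟩ := sieve_class (1 / 2) (by norm_num)
  obtain ⟨C, hC, hbv⟩ := bvEs 4
  obtain ⟨cV, hcV, hV⟩ := VP_lower
  obtain ⟨X₁, hX₁, hpi⟩ := piN_ge
  have hB0 : (0 : ℝ) < B := by exact_mod_cast hB
  set c : ℝ := 1 / (5 * B) with hc
  have hc0 : 0 < c := by positivity
  have hc1 : c < 1 := by
    rw [hc, div_lt_one (by positivity)]
    have : (1 : ℝ) ≤ B := by exact_mod_cast hB
    linarith
  have hcB : c * B = 1 / 5 := by rw [hc]; field_simp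
  refine ⟨c, hc0, hc1, cV / 32, by positivity, ?_⟩
  have h3 := tendsto_natCast_atTop_atTop (R := ℝ)
  have hlog : Tendsto (fun x : ℕ => Real.log (x : ℝ)) atTop atTop := Real.tendsto_log_atTop.comp h3
  have e1 : ∀ᶠ x : ℕ in atTop, (2 : ℝ) ≤ (x : ℝ) ^ c :=
    h3.eventually ((tendsto_rpow_atTop hc0).eventually_ge_atTop 2)
  have e2 : ∀ᶠ x : ℕ in atTop, (8 : ℝ) ≤ (x : ℝ) ^ (1 / 5 : ℝ) :=
    h3.eventually ((tendsto_rpow_atTop (by norm_num)).eventually_ge_atTop 8)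
  filter_upwards [e1, e2, eventually_ge_atTop X₁, hlog.eventually_ge_atTop 2,
    hlog.eventually_ge_atTop (128 * C / cV)] with x e1 e2 hx1 hL2 hLC
  have hx3 : 3 ≤ x := hX₁.trans hx1
  have hx3' : (3 : ℝ) ≤ x := by exact_mod_cast hx3
  have hx0 : (0 : ℝ) < x := by linarith
  set z := ⌊(x : ℝ) ^ c⌋₊ with hz
  set L := Real.log x with hL
  have hL0 : 0 < L := by linarith
  have hz2 : 2 ≤ z := Nat.le_floor (by exact_mod_cast e1)
  have hz2' : (2 : ℝ) ≤ z := by exact_mod_cast hz2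
  have hzc : (z : ℝ) ≤ (x : ℝ) ^ c := Nat.floor_le (by positivity)
  have hlz0 : 0 < Real.log z := Real.log_pos (by linarith)
  have hlz : Real.log z ≤ L := by
    apply Real.log_le_log (by linarith)
    calc (z : ℝ) ≤ (x : ℝ) ^ c := hzc
      _ ≤ (x : ℝ) ^ (1 : ℝ) := Real.rpow_le_rpow_of_exponent_le (by linarith) hc1.le
      _ = x := Real.rpow_one _
  have hs := hsieve z hz2 (OP z) (fun p hp => mem_OP.1 hp) 8 (by norm_num) (by
    intro p hp h8
    obtain ⟨hpp, hp3, -⟩ := mem_OP.1 hp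
    have h4 : p ∣ 2 ^ 3 := by simpa using h8
    have := (Nat.prime_dvd_prime_iff_eq hpp Nat.prime_two).1 (hpp.dvd_of_dvd_pow h4)
    omega) 3 (by norm_num) x
  have hφ : Nat.totient 8 = 4 := by decide
  rw [hφ] at hs
  have hs1 := (abs_le.1 hs).1
  -- the error
  have herr : ErS x 8 z B (OP z) ≤ C * (x / L ^ 4) := by
    have h4 := ErS_le x 8 z B (by norm_num) (OP z) (fun p hp => (mem_OP.1 hp).1)
    refine h4.trans (le_trans ?_ (hbv x hx3))
    apply sum_le_sum_of_subset_of_nonneg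
    · apply Icc_subset_Icc_right
      apply Nat.le_floor
      push_cast
      have h5 : (z : ℝ) ^ B ≤ (x : ℝ) ^ (1 / 5 : ℝ) := by
        calc (z : ℝ) ^ B ≤ ((x : ℝ) ^ c) ^ B := pow_le_pow_left₀ (by positivity) hzc B
          _ = (x : ℝ) ^ (1 / 5 : ℝ) := by
              rw [← Real.rpow_natCast, ← Real.rpow_mul hx0.le, hcB]
      calc (8 : ℝ) * (z : ℝ) ^ B ≤ (x : ℝ) ^ (1 / 5 : ℝ) * (x : ℝ) ^ (1 / 5 : ℝ) := by gcongr
        _ = (x : ℝ) ^ (2 / 5 : ℝ) := by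
            rw [← Real.rpow_add hx0]
            norm_num
    · intro d _ _
      exact Es_nonneg x d
  have hlog2 : ((Nat.log 2 z : ℝ) + 2) ≤ 4 * L := by
    have h5 : (Nat.log 2 z : ℝ) * Real.log 2 ≤ Real.log z := by
      have h6 : 2 ^ Nat.log 2 z ≤ z := Nat.pow_log_le_self 2 (by omega)
      have h7 : ((2 : ℝ)) ^ Nat.log 2 z ≤ z := by exact_mod_cast h6
      have h8 := Real.log_le_log (by positivity) h7
      rwa [Real.log_pow] at h8
    have h6 := Real.log_two_gt_d9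
    have h7 : (0 : ℝ) ≤ Nat.log 2 z := Nat.cast_nonneg _
    nlinarith
  have hpix := hpi x hx1
  have hVz := hV z hz2
  have hmain : cV / 8 * (x / L ^ 2) ≤ (piN x : ℝ) / ((4 : ℕ) : ℝ) * VP (OP z) := by
    have h5 : cV / L ≤ VP (OP z) := le_trans (div_le_div_of_nonneg_left hcV.le hlz0 hlz) hVz
    calc cV / 8 * (x / L ^ 2) = (x / (2 * L)) / ((4 : ℕ) : ℝ) * (cV / L) := by
          push_cast
          field_simp
          norm_num
      _ ≤ _ := by
          apply mul_le_mul _ h5 (by positivity) (by positivity)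
          apply div_le_div_of_nonneg_right hpix (by norm_num)
  have herr2 : ((Nat.log 2 z : ℝ) + 2) * ErS x 8 z B (OP z) ≤ cV / 32 * (x / L ^ 2) := by
    calc ((Nat.log 2 z : ℝ) + 2) * ErS x 8 z B (OP z) ≤ (4 * L) * (C * (x / L ^ 4)) :=
          mul_le_mul hlog2 herr (ErS_nonneg _ _ _ _ _) (by positivity)
      _ = 4 * C / L * (x / L ^ 2) := by
          field_simp
      _ ≤ cV / 32 * (x / L ^ 2) := by
          apply mul_le_mul_of_nonneg_right _ (by positivity)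
          rw [div_le_div_iff₀ hL0 (by norm_num)]
          rw [div_le_iff₀ hcV] at hLC
          linarith
  have hfin : ((T8 x z).card : ℝ) = ((NS x 8 3 (OP z)).card : ℝ) := rfl
  rw [hfin]
  have h0 : 0 ≤ cV / 8 * (x / L ^ 2) := by positivity
  linarith

end Pool.Agent.Y892.TB
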