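import Pool.Agent.Y892.TB.A3
import Pool.Agent.Y892.TB.A4

/-!
Twists of the base two: for all but boundedly many members `m` of a set which is independent
together with `2`, all the numbers `2 ^ s m ^ r`, `s` odd, `r` even, are primitive roots modulo
almost all sifted primes `p ≡ 3 (mod 8)`.
-/

set_option autoImplicit false

open Finset Filter

namespace Pool.Agent.Y892.TB

open Pool.Agent.Y855 Pool.Agent.H442R2.KF

/-- all the numbers `2 ^ s m ^ r`, `s ≤ R` odd, `0 < r ≤ R` even, are primitive roots modulo `p` -/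
def AllR (p m R : ℕ) : Prop := ∀ s r : ℕ, Odd s → Even r → 0 < r → s ≤ R → r ≤ R →
  orderOf ((2 ^ s * m ^ r : ℕ) : ZMod p) = p - 1

theorem two_pow_half {p : ℕ} (hp : p.Prime) (h8 : p % 8 = 3) :
    (2 : ZMod p) ^ ((p - 1) / 2) = -1 := by
  have : Fact p.Prime := ⟨hp⟩
  have hp2 : p ≠ 2 := by rintro rfl; norm_num at h8
  have h20 : (2 : ZMod p) ≠ 0 := by
    intro h
    have h1 : ((2 : ℕ) : ZMod p) = 0 := by exact_mod_cast h
    rw [ZMod.natCast_eq_zero_iff] at h1
    exact hp2 ((Nat.prime_dvd_prime_iff_eq hp Nat.prime_two).1 h1)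
  have hns : ¬ IsSquare (2 : ZMod p) := by
    rw [ZMod.exists_sq_eq_two_iff hp2]
    omega
  rw [ZMod.euler_criterion p h20] at hns
  have e : (p - 1) / 2 = p / 2 := by omega
  rw [e]
  rcases ZMod.pow_div_two_eq_neg_one_or_one p h20 with h | h
  · exact absurd h hns
  · exact h

theorem allR_of {p m R : ℕ} (hp : p.Prime) (h8 : p % 8 = 3) (hm : ¬ p ∣ m)
    (h : ∀ l : ℕ, l.Prime → 3 ≤ l → l ∣ p - 1 → ∀ s r : ℕ, s ≤ R → 1 ≤ r → r ≤ R →
      ((val m s r : ℤ) : ZMod p) ^ ((p - 1) / l) ≠ 1) : AllR p m R := by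
  have : Fact p.Prime := ⟨hp⟩
  intro s r hs hr hr0 hsR hrR
  have hp1 : 0 < p - 1 := by have := hp.two_le; omega
  have hm0 : (m : ZMod p) ≠ 0 := by
    rwa [Ne, ZMod.natCast_eq_zero_iff]
  have h20 : (2 : ZMod p) ≠ 0 := by
    intro h'
    have h1 := two_pow_half hp h8
    rw [h', zero_pow (by omega)] at h1
    have h2 : (1 : ZMod p) = 0 := by
      have : (1 : ZMod p) = - (-1) := by ring
      rw [this, ← h1, neg_zero]
    exact one_ne_zero h2
  have ha : ((2 ^ s * m ^ r : ℕ) : ZMod p) ≠ 0 := by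
    push_cast
    exact mul_ne_zero (pow_ne_zero _ h20) (pow_ne_zero _ hm0)
  apply orderOf_eq_of_pow_and_pow_div_prime hp1
  · exact ZMod.pow_card_sub_one_eq_one ha
  · intro q hq hqd
    by_cases hq2 : q = 2
    · subst hq2
      obtain ⟨u, hu⟩ := hr
      have h2 : 2 * ((p - 1) / 2) = p - 1 := Nat.mul_div_cancel' hqd
      push_cast
      rw [mul_pow, ← pow_mul, mul_comm s, pow_mul, two_pow_half hp h8, hs.neg_one_pow, hu,
        ← pow_mul]
      have e : (u + u) * ((p - 1) / 2) = (p - 1) * u := by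
        nlinarith
      rw [e, pow_mul, ZMod.pow_card_sub_one_eq_one hm0, one_pow, mul_one]
      intro h3
      have h4 : (2 : ZMod p) = 0 := by
        have : (2 : ZMod p) = 1 - (-1) := by ring
        rw [this, h3, sub_self]
      exact h20 h4
    · have h3 : 3 ≤ q := by have := hq.two_le; omega
      have h4 := h q hq h3 hqd s r hsR hr0 hrR
      have e : ((2 ^ s * m ^ r : ℕ) : ZMod p) = ((val m s r : ℤ) : ZMod p) := by
        unfold val
        push_cast
        rfl
      rw [e]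
      exact h4

/-- large prime factors of `p - 1` -/
def LFp (z p : ℕ) : Finset ℕ := (p - 1).primeFactors.filter (fun l => z < l)

theorem LFp_card {x z p K₀ : ℕ} (hp : p.Prime) (hpx : p ≤ x) (hK : x ≤ (z + 1) ^ K₀) :
    (LFp z p).card ≤ K₀ := by
  by_contra hcon
  push Not at hcon
  have hp1 : 0 < p - 1 := by have := hp.two_le; omega
  have h2 : ∏ l ∈ LFp z p, l ∣ p - 1 := Finset.prod_primes_dvd _
    (fun l hl => (Nat.prime_of_mem_primeFactors (mem_filter.1 hl).1).prime)
    fun l hl => Nat.dvd_of_mem_primeFactors (mem_filter.1 hl).1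
  have h3 := Nat.le_of_dvd hp1 h2
  have h4 : (z + 1) ^ (LFp z p).card ≤ ∏ l ∈ LFp z p, l := by
    rw [← prod_const]
    exact prod_le_prod' fun l hl => (mem_filter.1 hl).2
  have h5 : (z + 1) ^ K₀ ≤ (z + 1) ^ (LFp z p).card := Nat.pow_le_pow_right (by omega) hcon.le
  omega

open Classical in
theorem count (x z k R K₀ H : ℕ) (M : Finset ℕ) (hMH : ∀ m ∈ M, 1 ≤ m ∧ m ≤ H)
    (hK : x ≤ (z + 1) ^ K₀) :
    ∑ m ∈ M, ((T8 x z).filter (fun p => ¬ AllR p m R)).card ≤
      K₀ * k * (T8 x z).card + M.card * ((Ex x z k R M).card + H) := by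
  have hdc : ∑ m ∈ M, ((T8 x z).filter (fun p => ¬ AllR p m R)).card =
      ∑ p ∈ T8 x z, (M.filter (fun m => ¬ AllR p m R)).card := by
    simp only [card_filter]
    rw [sum_comm]
  rw [hdc]
  have hpt : ∀ p ∈ T8 x z, (M.filter (fun m => ¬ AllR p m R)).card ≤
      K₀ * k + M.card * (if p ∈ Ex x z k R M ∪ Icc 1 H then 1 else 0) := by
    intro p hp
    by_cases hpE : p ∈ Ex x z k R M ∪ Icc 1 H
    · rw [if_pos hpE, mul_one]
      exact (card_filter_le _ _).trans (Nat.le_add_left _ _)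
    · rw [if_neg hpE, mul_zero, add_zero]
      rw [mem_union, not_or, mem_Icc] at hpE
      obtain ⟨hpE, hpH⟩ := hpE
      rw [mem_T8] at hp
      obtain ⟨⟨hp1, hpx⟩, hpp, h8, hsm⟩ := hp
      have hnd : ∀ m ∈ M, ¬ p ∣ m := by
        intro m hm hd
        have := Nat.le_of_dvd (hMH m hm).1 hd
        have := (hMH m hm).2
        omega
      have hnd2 : ∀ m ∈ M, ¬ p ∣ 2 * m := by
        intro m hm hd
        rcases hpp.dvd_mul.1 hd with h | h
        · have := (Nat.prime_dvd_prime_iff_eq hpp Nat.prime_two).1 h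
          omega
        · exact hnd m hm h
      have hsub : M.filter (fun m => ¬ AllR p m R) ⊆
          (LFp z p).biUnion (fun l => BadAt M R p l) := by
        intro m hm
        rw [mem_filter] at hm
        by_contra hcon
        apply hm.2
        apply allR_of hpp h8 (hnd m hm.1)
        intro l hl hl3 hlp s r hs hr1 hr2 heq
        apply hcon
        rw [mem_biUnion]
        refine ⟨l, ?_, ?_⟩
        · unfold LFp
          rw [mem_filter, Nat.mem_primeFactors]
          refine ⟨⟨hl, hlp, by have := hpp.two_le; omega⟩, ?_⟩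
          by_contra hzl
          exact hsm l hl hl3 (by omega) hlp
        · unfold BadAt
          rw [mem_filter]
          exact ⟨hm.1, s, r, hs, hr1, hr2, heq⟩
      refine (card_le_card hsub).trans (card_biUnion_le.trans ?_)
      calc ∑ l ∈ LFp z p, (BadAt M R p l).card ≤ ∑ _l ∈ LFp z p, k := by
            apply sum_le_sum
            intro l hl
            by_contra hcon
            push Not at hcon
            apply hpE
            unfold LFp at hl
            rw [mem_filter] at hl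
            unfold Ex
            rw [mem_filter, mem_Icc]
            exact ⟨⟨hp1, hpx⟩, hpp, hnd2, l, Nat.prime_of_mem_primeFactors hl.1,
              Nat.dvd_of_mem_primeFactors hl.1, hl.2, hcon.le⟩
        _ = (LFp z p).card * k := by rw [sum_const, smul_eq_mul]
        _ ≤ K₀ * k := Nat.mul_le_mul_right k (LFp_card hpp hpx hK)
  refine (sum_le_sum hpt).trans ?_
  rw [sum_add_distrib, sum_const, smul_eq_mul, ← mul_sum, mul_comm (T8 x z).card]
  apply Nat.add_le_add_left
  apply Nat.mul_le_mul_left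
  rw [← card_filter]
  calc ((T8 x z).filter (fun p => p ∈ Ex x z k R M ∪ Icc 1 H)).card
      ≤ (Ex x z k R M ∪ Icc 1 H).card := by
        apply card_le_card
        intro p hp
        exact (mem_filter.1 hp).2
    _ ≤ (Ex x z k R M).card + (Icc 1 H).card := card_union_le _ _
    _ = _ := by rw [Nat.card_Icc, Nat.add_sub_cancel]

open Classical in
theorem main : ∃ c κ η K : ℝ, 0 < c ∧ 0 < κ ∧ 0 < η ∧ 0 < K ∧ ∀ᶠ x : ℕ in atTop,
    η * ((x : ℝ) / (Real.log x) ^ 2) ≤ ((T8 x ⌊(x : ℝ) ^ c⌋₊).card : ℝ) ∧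
    ∀ M : Finset ℕ, Ind2 M → (∀ m ∈ M, 1 ≤ m ∧ (m : ℝ) ≤ (x : ℝ) ^ κ) → ∀ ε : ℝ, 0 < ε →
      ∃ E ⊆ M, (E.card : ℝ) ≤ K / ε ∧ ∀ m ∈ M \ E,
        (((T8 x ⌊(x : ℝ) ^ c⌋₊).filter (fun p => ¬ AllR p m ⌊(x : ℝ) ^ κ⌋₊)).card : ℝ) ≤
          ε * (T8 x ⌊(x : ℝ) ^ c⌋₊).card := by
  obtain ⟨c, hc, hc1, η, hη, hT⟩ := T8_lower
  set K₀ : ℕ := ⌈1 / c⌉₊ with hK₀
  set κ := ka c with hκ
  set k := kk c with hk
  have hκ0 : 0 < κ := ka_pos hc
  have hκk : (3 * (k : ℝ) + 3) * κ = c / 8 := ka_le hc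
  have hk0 : (0 : ℝ) ≤ k := Nat.cast_nonneg k
  have hκc : κ ≤ c / 8 := by nlinarith
  refine ⟨c, κ, η, K₀ * k + 1, hc, hκ0, hη, by positivity, ?_⟩
  have h3 := tendsto_natCast_atTop_atTop (R := ℝ)
  have e1 : ∀ᶠ x : ℕ in atTop, 2 / η * (Real.log x) ^ 2 ≤ (x : ℝ) ^ (c / 8) := by
    have h4 : ∀ᶠ t : ℝ in atTop, ‖Real.log t ^ 2‖ ≤ (η / 2) * ‖t ^ (c / 8)‖ := by
      have h5 : (fun t : ℝ => Real.log t ^ 2) =o[atTop] fun t => t ^ (c / 8) := by
        have := isLittleO_log_rpow_rpow_atTop (s := c / 8) 2 (by positivity)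
        simpa using this
      exact h5.def (by positivity)
    filter_upwards [h3.eventually h4] with x hx
    rw [Real.norm_of_nonneg (by positivity), Real.norm_of_nonneg (by positivity)] at hx
    calc 2 / η * (Real.log x) ^ 2 ≤ 2 / η * ((η / 2) * (x : ℝ) ^ (c / 8)) := by gcongr
      _ = (x : ℝ) ^ (c / 8) := by field_simp
  filter_upwards [hT, Ex_real c hc hc1, e1, eventually_ge_atTop 3] with x hx1 hx2 hx3 hx4
  refine ⟨hx1, fun M hM hMb ε hε => ?_⟩
  have hx : (3 : ℝ) ≤ x := by exact_mod_cast hx4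
  have hx0 : (0 : ℝ) < x := by linarith
  have hL : 0 < Real.log x := Real.log_pos (by linarith)
  set z := ⌊(x : ℝ) ^ c⌋₊ with hz
  set R := ⌊(x : ℝ) ^ κ⌋₊ with hR
  have hEx := hx2 M hM hMb
  have hRY : (R : ℝ) ≤ (x : ℝ) ^ κ := Nat.floor_le (by positivity)
  have hMR : ∀ m ∈ M, 1 ≤ m ∧ m ≤ R := fun m hm => ⟨(hMb m hm).1, Nat.le_floor (hMb m hm).2⟩
  have hMc : (M.card : ℝ) ≤ (x : ℝ) ^ κ := by
    have h4 : M ⊆ Icc 1 R := fun m hm => mem_Icc.2 (hMR m hm)
    have h5 := card_le_card h4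
    rw [Nat.card_Icc, Nat.add_sub_cancel] at h5
    exact le_trans (by exact_mod_cast h5) hRY
  have hK : x ≤ (z + 1) ^ K₀ := by
    have h4 : (x : ℝ) ^ c ≤ (z : ℝ) + 1 := (Nat.lt_floor_add_one _).le
    have h5 : (x : ℝ) ≤ ((z : ℝ) + 1) ^ K₀ := by
      calc (x : ℝ) = ((x : ℝ) ^ c) ^ (1 / c) := by
            rw [← Real.rpow_mul hx0.le, mul_one_div, div_self hc.ne', Real.rpow_one]
        _ ≤ ((x : ℝ) ^ c) ^ (K₀ : ℝ) := by
            apply Real.rpow_le_rpow_of_exponent_le
            · exact Real.one_le_rpow (by linarith) hc.le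
            · exact Nat.le_ceil _
        _ ≤ ((z : ℝ) + 1) ^ (K₀ : ℝ) := Real.rpow_le_rpow (by positivity) h4 (Nat.cast_nonneg _)
        _ = _ := Real.rpow_natCast _ _
    exact_mod_cast h5
  have hcount := count x z k R K₀ R M hMR hK
  have hT0 : 0 < ((T8 x z).card : ℝ) := lt_of_lt_of_le (by positivity) hx1
  have hcount' : ∑ m ∈ M, (((T8 x z).filter (fun p => ¬ AllR p m R)).card : ℝ) ≤
      K₀ * k * (T8 x z).card + M.card * ((Ex x z k R M).card + R) := by
    exact_mod_cast hcount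
  have hsmall : (M.card : ℝ) * ((Ex x z k R M).card + R) ≤ (T8 x z).card := by
    have h4 : (R : ℝ) ≤ (x : ℝ) ^ (1 - c / 4) := by
      refine hRY.trans (Real.rpow_le_rpow_of_exponent_le (by linarith) ?_)
      linarith
    calc (M.card : ℝ) * ((Ex x z k R M).card + R)
        ≤ (x : ℝ) ^ κ * ((x : ℝ) ^ (1 - c / 4) + (x : ℝ) ^ (1 - c / 4)) := by gcongr
      _ = 2 * (x : ℝ) ^ (κ + (1 - c / 4)) := by
          rw [Real.rpow_add hx0]; ring
      _ ≤ 2 * (x : ℝ) ^ (1 - c / 8) := by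
          apply mul_le_mul_of_nonneg_left _ (by norm_num)
          apply Real.rpow_le_rpow_of_exponent_le (by linarith)
          linarith
      _ ≤ η * ((x : ℝ) / (Real.log x) ^ 2) := by
          have h5 : (x : ℝ) = (x : ℝ) ^ (1 - c / 8) * (x : ℝ) ^ (c / 8) := by
            rw [← Real.rpow_add hx0, sub_add_cancel, Real.rpow_one]
          rw [mul_div_assoc', le_div_iff₀ (by positivity)]
          have h6 : 2 * (x : ℝ) ^ (1 - c / 8) * Real.log x ^ 2 =
              η * (x : ℝ) ^ (1 - c / 8) * (2 / η * Real.log x ^ 2) := by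
            field_simp
          rw [h6]
          calc η * (x : ℝ) ^ (1 - c / 8) * (2 / η * Real.log x ^ 2)
              ≤ η * (x : ℝ) ^ (1 - c / 8) * (x : ℝ) ^ (c / 8) :=
                mul_le_mul_of_nonneg_left hx3 (by positivity)
            _ = η * (x : ℝ) := by rw [mul_assoc, ← h5]
      _ ≤ _ := hx1
  refine ⟨M.filter (fun m => ε * (T8 x z).card <
    (((T8 x z).filter (fun p => ¬ AllR p m R)).card : ℝ)), filter_subset _ _, ?_, ?_⟩
  · set E := M.filter (fun m => ε * (T8 x z).card <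
      (((T8 x z).filter (fun p => ¬ AllR p m R)).card : ℝ)) with hE
    have h4 : (E.card : ℝ) * (ε * (T8 x z).card) ≤
        ∑ m ∈ M, (((T8 x z).filter (fun p => ¬ AllR p m R)).card : ℝ) := by
      rw [← nsmul_eq_mul]
      calc E.card • (ε * ((T8 x z).card : ℝ)) ≤
            ∑ m ∈ E, (((T8 x z).filter (fun p => ¬ AllR p m R)).card : ℝ) := by
            apply card_nsmul_le_sum
            intro m hm
            rw [hE, mem_filter] at hm
            exact hm.2.le
        _ ≤ _ := sum_le_sum_of_subset_of_nonneg (filter_subset _ _) fun _ _ _ => Nat.cast_nonneg _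
    rw [le_div_iff₀ hε]
    have h5 : (E.card : ℝ) * ε * (T8 x z).card ≤ (K₀ * k + 1) * (T8 x z).card := by
      calc (E.card : ℝ) * ε * (T8 x z).card = (E.card : ℝ) * (ε * (T8 x z).card) := by ring
        _ ≤ _ := h4
        _ ≤ _ := hcount'
        _ ≤ K₀ * k * (T8 x z).card + (T8 x z).card := by linarith
        _ = _ := by ring
    exact le_of_mul_le_mul_right h5 hT0
  · intro m hm
    rw [Finset.mem_sdiff, mem_filter, not_and, not_lt] at hm
    exact hm.2 hm.1

end Pool.Agent.Y892.TB
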