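import Pool.Agent.Y892.TB.A5

/-!
Infinite independent sets, and the odd primes.
-/

set_option autoImplicit false

open Finset Filter

namespace Pool.Agent.Y892.TB

/-- the primes up to `x` for which all the numbers `2 ^ s m ^ r` are primitive roots -/
noncomputable def Gd (κ : ℝ) (m x : ℕ) : Finset ℕ := by
  classical
  exact (range (x + 1)).filter (fun p => p.Prime ∧ AllR p m ⌊(x : ℝ) ^ κ⌋₊)

open Classical in
/-- the infinite version -/
theorem inf_of (c κ η K : ℝ) (hK : 0 < K) (hκ : 0 < κ)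
    (h : ∀ᶠ x : ℕ in atTop,
    η * ((x : ℝ) / (Real.log x) ^ 2) ≤ ((T8 x ⌊(x : ℝ) ^ c⌋₊).card : ℝ) ∧
    ∀ M : Finset ℕ, Ind2 M → (∀ m ∈ M, 1 ≤ m ∧ (m : ℝ) ≤ (x : ℝ) ^ κ) → ∀ ε : ℝ, 0 < ε →
      ∃ E ⊆ M, (E.card : ℝ) ≤ K / ε ∧ ∀ m ∈ M \ E,
        (((T8 x ⌊(x : ℝ) ^ c⌋₊).filter (fun p => ¬ AllR p m ⌊(x : ℝ) ^ κ⌋₊)).card : ℝ) ≤
          ε * (T8 x ⌊(x : ℝ) ^ c⌋₊).card)
    (S : Set ℕ) (hS : ∀ M : Finset ℕ, (M : Set ℕ) ⊆ S → Ind2 M) (h1 : ∀ m ∈ S, 1 ≤ m)
    (ε : ℝ) (hε : 0 < ε) (hε1 : ε ≤ 1) :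
    ∃ E : Finset ℕ, (E.card : ℝ) ≤ K / ε ∧ ∀ m ∈ S, m ∉ E → ∃ᶠ x : ℕ in atTop,
      (1 - ε) * (η * ((x : ℝ) / (Real.log x) ^ 2)) ≤ (Gd κ m x).card := by
  set B : Set ℕ := {m | m ∈ S ∧ ¬ ∃ᶠ x : ℕ in atTop,
      (1 - ε) * (η * ((x : ℝ) / (Real.log x) ^ 2)) ≤ (Gd κ m x).card} with hB
  -- finite subsets of `B` are small
  have key : ∀ M : Finset ℕ, (M : Set ℕ) ⊆ B → (M.card : ℝ) ≤ K / ε := by
    intro M hM
    have hMS : (M : Set ℕ) ⊆ S := fun m hm => (hM hm).1
    have e1 : ∀ᶠ x : ℕ in atTop, ∀ m ∈ M, ¬ ((1 - ε) * (η * ((x : ℝ) / (Real.log x) ^ 2)) ≤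
        (Gd κ m x).card) := by
      rw [Filter.eventually_all_finset]
      intro m hm
      have h2 := (hM (mem_coe.2 hm)).2
      rwa [Filter.not_frequently] at h2
    have e2 : ∀ᶠ x : ℕ in atTop, ∀ m ∈ M, (m : ℝ) ≤ (x : ℝ) ^ κ := by
      rw [Filter.eventually_all_finset]
      intro m _
      exact (tendsto_natCast_atTop_atTop (R := ℝ)).eventually
        ((tendsto_rpow_atTop hκ).eventually_ge_atTop _)
    obtain ⟨x, ⟨hx1, hx2⟩, hx3, hx4⟩ := ((h.and (e1.and e2)).exists)
    obtain ⟨E, hEM, hEc, hE⟩ := hx2 M (hS M hMS)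
      (fun m hm => ⟨h1 m (hMS (mem_coe.2 hm)), hx4 m hm⟩) ε hε
    have hME : M ⊆ E := by
      intro m hm
      by_contra hmE
      apply hx3 m hm
      have h3 := hE m (Finset.mem_sdiff.2 ⟨hm, hmE⟩)
      set T := T8 x ⌊(x : ℝ) ^ c⌋₊ with hT
      have h4 : T.card = (T.filter (fun p => AllR p m ⌊(x : ℝ) ^ κ⌋₊)).card +
          (T.filter (fun p => ¬ AllR p m ⌊(x : ℝ) ^ κ⌋₊)).card :=
        (card_filter_add_card_filter_not _).symm
      have h5 : (T.filter (fun p => AllR p m ⌊(x : ℝ) ^ κ⌋₊)) ⊆ Gd κ m x := by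
        intro p hp
        rw [mem_filter, hT, mem_T8] at hp
        unfold Gd
        rw [mem_filter, mem_range]
        exact ⟨by omega, hp.1.2.1, hp.2⟩
      have h6 : ((T.filter (fun p => AllR p m ⌊(x : ℝ) ^ κ⌋₊)).card : ℝ) ≤ (Gd κ m x).card := by
        exact_mod_cast card_le_card h5
      have h7 : (T.card : ℝ) = ((T.filter (fun p => AllR p m ⌊(x : ℝ) ^ κ⌋₊)).card : ℝ) +
          ((T.filter (fun p => ¬ AllR p m ⌊(x : ℝ) ^ κ⌋₊)).card : ℝ) := by exact_mod_cast h4
      calc (1 - ε) * (η * ((x : ℝ) / (Real.log x) ^ 2)) ≤ (1 - ε) * T.card :=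
            mul_le_mul_of_nonneg_left hx1 (by linarith)
        _ ≤ _ := by linarith
    exact le_trans (by exact_mod_cast card_le_card hME) hEc
  have hfin : B.Finite := by
    by_contra hinf
    obtain ⟨n, hn⟩ := exists_nat_gt (K / ε)
    obtain ⟨M, hM, hMc⟩ := Set.Infinite.exists_subset_card_eq hinf n
    have := key M hM
    rw [hMc] at this
    linarith
  refine ⟨hfin.toFinset, key _ (by simp), ?_⟩
  intro m hm hmE
  rw [Set.Finite.mem_toFinset, hB] at hmE
  by_contra hcon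
  exact hmE ⟨hm, hcon⟩

/-- sets of odd primes are independent together with `2` -/
theorem ind2_primes (M : Finset ℕ) (hM : ∀ q ∈ M, q.Prime ∧ q ≠ 2) : Ind2 M := by
  classical
  intro a c h q hq
  have hqp := (hM q hq).1
  have : Fact q.Prime := ⟨hqp⟩
  have h2 : padicValRat q ((2 : ℚ) ^ a * ∏ m ∈ M, (m : ℚ) ^ (c m)) = c q := by
    have hne : ∀ m ∈ M, (m : ℚ) ^ (c m) ≠ 0 := by
      intro m hm
      apply zpow_ne_zero
      exact_mod_cast (hM m hm).1.ne_zero
    have e1 : padicValRat q ((2 : ℚ) ^ a) = 0 := by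
      have h3 : padicValRat q (2 : ℚ) = 0 := by
        have h4 : padicValRat q ((2 : ℕ) : ℚ) = ((padicValNat q 2 : ℕ) : ℤ) := padicValRat.of_nat
        have h5 : padicValNat q 2 = 0 := by
          apply padicValNat.eq_zero_of_not_dvd
          intro hd
          exact (hM q hq).2 ((Nat.prime_dvd_prime_iff_eq hqp Nat.prime_two).1 hd)
        rw [h5] at h4
        exact_mod_cast h4
      rw [padicValRat.zpow, h3, mul_zero]
    have e2 : ∀ s : Finset ℕ, s ⊆ M → padicValRat q (∏ m ∈ s, (m : ℚ) ^ (c m)) =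
        if q ∈ s then c q else 0 := by
      intro s
      induction s using Finset.induction_on with
      | empty => intro _; simp
      | insert b s hb ih =>
        intro hs
        have hbM : b ∈ M := hs (mem_insert_self _ _)
        have hsM : s ⊆ M := fun t ht => hs (mem_insert_of_mem ht)
        rw [prod_insert hb, padicValRat.mul (hne b hbM)
          (prod_ne_zero_iff.2 fun t ht => hne t (hsM ht)), ih hsM]
        have hval : padicValRat q ((b : ℚ) ^ (c b)) = if q = b then c b else 0 := by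
          rw [padicValRat.zpow, padicValRat.of_nat]
          split_ifs with hqb
          · subst hqb
            rw [padicValNat_self]
            push_cast
            ring
          · have h5 : padicValNat q b = 0 := by
              apply padicValNat.eq_zero_of_not_dvd
              intro hd
              exact hqb ((Nat.prime_dvd_prime_iff_eq hqp (hM b hbM).1).1 hd)
            rw [h5]
            push_cast
            ring
        rw [hval]
        by_cases hqb : q = b
        · subst hqb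
          rw [if_pos rfl, if_neg hb, if_pos (mem_insert_self _ _), add_zero]
        · rw [if_neg hqb, zero_add]
          by_cases hqs : q ∈ s
          · rw [if_pos hqs, if_pos (mem_insert_of_mem hqs)]
          · rw [if_neg hqs, if_neg]
            rw [mem_insert, not_or]
            exact ⟨hqb, hqs⟩
    rw [padicValRat.mul (zpow_ne_zero _ (by norm_num)) (prod_ne_zero_iff.2 hne), e1, e2 M subset_rfl,
      if_pos hq, zero_add]
  rw [h, padicValRat.one] at h2
  exact h2.symm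

end Pool.Agent.Y892.TB
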