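import Pool.Agent.Y892.TB.A6
import Pool.Agent.Y848.MS.ThmB

/-!
Windows with many primes, modulo all of which the twists `2 ^ s m ^ r` are primitive roots: all but
boundedly many members `m` of an independent set, in all but few of the windows of helper848.
-/

set_option autoImplicit false

open Finset Filter

namespace Pool.Agent.Y892.TB

open Pool.Agent.Y855

open Classical in
/-- the pointwise bound -/
theorem pt (x z k R K₀ H : ℕ) (M : Finset ℕ) (hMH : ∀ m ∈ M, 1 ≤ m ∧ m ≤ H)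
    (hK : x ≤ (z + 1) ^ K₀) {p : ℕ} (hp : p ∈ T8 x z) (hpE : p ∉ Ex x z k R M) (hpH : H < p) :
    (M.filter (fun m => ¬ AllR p m R)).card ≤ K₀ * k := by
  rw [mem_T8] at hp
  obtain ⟨⟨hp1, hpx⟩, hpp, h8, hsm⟩ := hp
  have hnd : ∀ m ∈ M, ¬ p ∣ m := by
    intro m hm hd
    have := Nat.le_of_dvd (hMH m hm).1 hd
    have := (hMH m hm).2
    omega
  have hnd2 : ∀ m ∈ M, ¬ p ∣ 2 * m := by
    intro m hm hd
    rcases hpp.dvd_mul.1 hd with h | h
    · have := (Nat.prime_dvd_prime_iff_eq hpp Nat.prime_two).1 h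
      omega
    · exact hnd m hm h
  have hsub : M.filter (fun m => ¬ AllR p m R) ⊆
      (LFp z p).biUnion (fun l => BadAt M R p l) := by
    intro m hm
    rw [mem_filter] at hm
    by_contra hcon
    apply hm.2
    apply allR_of hpp h8 (hnd m hm.1)
    intro l hl hl3 hlp s r hs hr1 hr2 heq
    apply hcon
    rw [mem_biUnion]
    refine ⟨l, ?_, ?_⟩
    · unfold LFp
      rw [mem_filter, Nat.mem_primeFactors]
      refine ⟨⟨hl, hlp, by have := hpp.two_le; omega⟩, ?_⟩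
      by_contra hzl
      exact hsm l hl hl3 (by omega) hlp
    · unfold BadAt
      rw [mem_filter]
      exact ⟨hm.1, s, r, hs, hr1, hr2, heq⟩
  refine (card_le_card hsub).trans (card_biUnion_le.trans ?_)
  calc ∑ l ∈ LFp z p, (BadAt M R p l).card ≤ ∑ _l ∈ LFp z p, k := by
        apply sum_le_sum
        intro l hl
        by_contra hcon
        push Not at hcon
        apply hpE
        unfold LFp at hl
        rw [mem_filter] at hl
        unfold Ex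
        rw [mem_filter, mem_Icc]
        exact ⟨⟨hp1, hpx⟩, hpp, hnd2, l, Nat.prime_of_mem_primeFactors hl.1,
          Nat.dvd_of_mem_primeFactors hl.1, hl.2, hcon.le⟩
    _ = (LFp z p).card * k := by rw [sum_const, smul_eq_mul]
    _ ≤ K₀ * k := Nat.mul_le_mul_right k (LFp_card hpp hpx hK)

theorem AllR.mono {p m R R' : ℕ} (h : AllR p m R) (hR : R' ≤ R) : AllR p m R' :=
  fun s r hs hr hr0 hsR hrR => h s r hs hr hr0 (hsR.trans hR) (hrR.trans hR)

/-- the interval `(N, N + H]` contains at least `m` primes, and for every prime `p` in it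
`p ≡ 3 (mod 8)` and all prime factors of `(p - 1) / 2` exceed `x ^ c` -/
def Win (m H : ℕ) (c : ℝ) (x N : ℕ) : Prop :=
  m ≤ ((Ioc N (N + H)).filter Nat.Prime).card ∧ ∀ p ∈ Ioc N (N + H), p.Prime →
    p % 8 = 3 ∧ ∀ q : ℕ, q.Prime → q ∣ (p - 1) / 2 → (x : ℝ) ^ c < q

/-- `m` is good for all primes in the window -/
def GW (H R N q : ℕ) : Prop := ∀ p ∈ Ioc N (N + H), p.Prime → AllR p q R

theorem mem_T8_of {m H : ℕ} {c : ℝ} (hc : 0 < c) {x N p : ℕ} (hx : 1 ≤ x) (hH : H ≤ x) (hN : N ≤ x)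
    (hx2 : 2 * x ≤ x ^ 2) (hW : Win m H c x N) (hp : p ∈ Ioc N (N + H)) (hpp : p.Prime) :
    p ∈ T8 (x + H) ⌊((x + H : ℕ) : ℝ) ^ (c / 2)⌋₊ := by
  obtain ⟨h8, hr⟩ := hW.2 p hp hpp
  rw [mem_Ioc] at hp
  rw [mem_T8]
  refine ⟨⟨by omega, by omega⟩, hpp, h8, ?_⟩
  intro q hq hq3 hqz hqd
  have h2 : q ∣ (p - 1) / 2 := by
    have h3 : p - 1 = 2 * ((p - 1) / 2) := by omega
    rw [h3] at hqd
    rcases hq.dvd_mul.1 hqd with h | h
    · have := (Nat.prime_dvd_prime_iff_eq hq Nat.prime_two).1 h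
      omega
    · exact h
  have h3 := hr q hq h2
  have h4 : (q : ℝ) ≤ ((x + H : ℕ) : ℝ) ^ (c / 2) :=
    (Nat.le_floor_iff (by positivity)).1 hqz
  have hxr : (1 : ℝ) ≤ x := by exact_mod_cast hx
  have h5 : ((x + H : ℕ) : ℝ) ^ (c / 2) ≤ (x : ℝ) ^ c := by
    calc ((x + H : ℕ) : ℝ) ^ (c / 2) ≤ ((x : ℝ) ^ 2) ^ (c / 2) := by
          apply Real.rpow_le_rpow (by positivity) _ (by positivity)
          have h6 : x + H ≤ x ^ 2 := by omega
          exact_mod_cast h6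
      _ = (x : ℝ) ^ c := by
          rw [← Real.rpow_natCast, ← Real.rpow_mul (by linarith)]
          congr 1
          push_cast
          ring
  linarith

open Classical in
theorem windows (m : ℕ) : ∃ H A K : ℕ, ∃ c κ : ℝ, 0 < c ∧ 0 < κ ∧ κ ≤ 1 / 2 ∧ ∀ᶠ x : ℕ in atTop,
    (x : ℝ) / Real.log x ^ A ≤ (((Icc 1 x).filter (Win m H c x)).card : ℝ) ∧
    ∀ M : Finset ℕ, Ind2 M → (∀ q ∈ M, 1 ≤ q ∧ (q : ℝ) ≤ (x : ℝ) ^ κ) →
      (((Icc 1 x).filter (fun N => Win m H c x N ∧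
        K < (M.filter (fun q => ¬ GW H ⌊(x : ℝ) ^ κ⌋₊ N q)).card)).card : ℝ) ≤
        (x : ℝ) ^ (1 - κ) := by
  obtain ⟨δ, hδ, H, A, hB⟩ := Pool.Agent.Y848.MS.thmB_core m
  obtain ⟨c, hc, hcδ, hc1⟩ : ∃ c : ℝ, 0 < c ∧ c ≤ δ ∧ c ≤ 1 :=
    ⟨min δ 1, lt_min hδ one_pos, min_le_left _ _, min_le_right _ _⟩
  have hc20 : 0 < c / 2 := by positivity
  have hc21 : c / 2 < 1 := by linarith
  obtain ⟨K₀, hK₀⟩ : ∃ K₀ : ℕ, K₀ = ⌈1 / (c / 2)⌉₊ := ⟨_, rfl⟩
  obtain ⟨κ, hκ⟩ : ∃ κ : ℝ, κ = ka (c / 2) := ⟨_, rfl⟩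
  obtain ⟨k, hk⟩ : ∃ k : ℕ, k = kk (c / 2) := ⟨_, rfl⟩
  have hκ0 : 0 < κ := hκ ▸ ka_pos hc20
  have hκk : (3 * (k : ℝ) + 3) * κ = (c / 2) / 8 := by rw [hk, hκ]; exact ka_le hc20
  have hk0 : (0 : ℝ) ≤ k := Nat.cast_nonneg k
  have hκc : κ ≤ (c / 2) / 8 := by nlinarith
  refine ⟨H, A, H * (K₀ * k), c, κ, hc, hκ0, by linarith, ?_⟩
  have h3 := tendsto_natCast_atTop_atTop (R := ℝ)
  have hshift : Tendsto (fun x : ℕ => x + H) atTop atTop := tendsto_add_atTop_nat H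
  have e1 : ∀ᶠ x : ℕ in atTop, (8 : ℝ) * (H + 1) ≤ (x : ℝ) ^ ((c / 2) / 8) :=
    h3.eventually ((tendsto_rpow_atTop (by positivity)).eventually_ge_atTop _)
  filter_upwards [h3.eventually hB, hshift.eventually (Ex_real (c / 2) hc20 hc21), e1,
    eventually_ge_atTop (H + 2)] with x hx1 hx2 hx3 hx4
  have hxn : 2 ≤ x := by omega
  have hx : (2 : ℝ) ≤ x := by exact_mod_cast hxn
  have hx0 : (0 : ℝ) < x := by linarith
  have hx2' : 2 * x ≤ x ^ 2 := by nlinarith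
  constructor
  · refine hx1.trans ?_
    have h4 : (Icc 1 ⌊(x : ℝ)⌋₊).filter (fun N => Pool.Agent.Y848.MS.GoodB m H δ x N) ⊆
        (Icc 1 x).filter (Win m H c x) := by
      intro N hN
      rw [mem_filter, Nat.floor_natCast] at hN
      rw [mem_filter]
      refine ⟨hN.1, hN.2.1, fun p hp hpp => ⟨(hN.2.2 p hp hpp).1, fun q hq hqd => ?_⟩⟩
      refine lt_of_le_of_lt ?_ ((hN.2.2 p hp hpp).2.1 q hq hqd)
      exact Real.rpow_le_rpow_of_exponent_le (by linarith) hcδ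
    exact_mod_cast card_le_card h4
  intro M hM hMb
  obtain ⟨X, hX⟩ : ∃ X : ℕ, X = x + H := ⟨_, rfl⟩
  have hXx : x ≤ X := by omega
  have hXxr : (x : ℝ) ≤ X := by exact_mod_cast hXx
  have hX2 : (X : ℝ) ≤ 2 * x := by
    have : X ≤ 2 * x := by omega
    exact_mod_cast this
  have hX0 : (0 : ℝ) < X := by linarith
  obtain ⟨z, hz⟩ : ∃ z : ℕ, z = ⌊(X : ℝ) ^ (c / 2)⌋₊ := ⟨_, rfl⟩
  obtain ⟨R, hR⟩ : ∃ R : ℕ, R = ⌊(X : ℝ) ^ κ⌋₊ := ⟨_, rfl⟩
  have hpow : (x : ℝ) ^ κ ≤ (X : ℝ) ^ κ := Real.rpow_le_rpow hx0.le hXxr hκ0.le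
  have hMb' : ∀ q ∈ M, 1 ≤ q ∧ (q : ℝ) ≤ (X : ℝ) ^ κ := fun q hq =>
    ⟨(hMb q hq).1, (hMb q hq).2.trans hpow⟩
  have hEx := hx2 M hM (by rw [← hX, ← hκ]; exact hMb')
  rw [← hX, ← hκ, ← hk, ← hz, ← hR] at hEx
  have hMR : ∀ q ∈ M, 1 ≤ q ∧ q ≤ R := fun q hq =>
    ⟨(hMb' q hq).1, hR ▸ Nat.le_floor (hMb' q hq).2⟩
  have hRX : (R : ℝ) ≤ (X : ℝ) ^ κ := hR ▸ Nat.floor_le (by positivity)
  have hK : X ≤ (z + 1) ^ K₀ := by
    have h4 : (X : ℝ) ^ (c / 2) ≤ (z : ℝ) + 1 := hz ▸ (Nat.lt_floor_add_one _).le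
    have h5 : (X : ℝ) ≤ ((z : ℝ) + 1) ^ K₀ := by
      calc (X : ℝ) = ((X : ℝ) ^ (c / 2)) ^ (1 / (c / 2)) := by
            rw [← Real.rpow_mul hX0.le, mul_one_div, div_self hc20.ne', Real.rpow_one]
        _ ≤ ((X : ℝ) ^ (c / 2)) ^ (K₀ : ℝ) := by
            apply Real.rpow_le_rpow_of_exponent_le
            · exact Real.one_le_rpow (by linarith) hc20.le
            · rw [hK₀]; exact Nat.le_ceil _
        _ ≤ ((z : ℝ) + 1) ^ (K₀ : ℝ) := Real.rpow_le_rpow (by positivity) h4 (Nat.cast_nonneg _)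
        _ = _ := Real.rpow_natCast _ _
    exact_mod_cast h5
  -- the exceptional windows
  have hsub : (Icc 1 x).filter (fun N => Win m H c x N ∧
        H * (K₀ * k) < (M.filter (fun q => ¬ GW H ⌊(x : ℝ) ^ κ⌋₊ N q)).card) ⊆
      (Ex X z k R M ∪ Icc 1 R).biUnion (fun p => Ico (p - H) p) := by
    intro N hN
    rw [mem_filter, mem_Icc] at hN
    obtain ⟨⟨hN1, hNx⟩, hW, hlt⟩ := hN
    by_contra hcon
    apply absurd hlt
    rw [not_lt]
    have hpt : ∀ p ∈ Ioc N (N + H), p.Prime →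
        (M.filter (fun q => ¬ AllR p q R)).card ≤ K₀ * k := by
      intro p hp hpp
      have hpW : p ∉ Ex X z k R M ∪ Icc 1 R := by
        intro hpE
        apply hcon
        rw [mem_biUnion]
        refine ⟨p, hpE, ?_⟩
        rw [mem_Ioc] at hp
        rw [mem_Ico]
        omega
      rw [mem_union, not_or, mem_Icc] at hpW
      have hT := mem_T8_of hc (by omega) (by omega) hNx hx2' hW hp hpp
      rw [← hX, ← hz] at hT
      refine pt X z k R K₀ R M hMR hK hT hpW.1 ?_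
      have := hpp.one_le
      omega
    have hsub2 : M.filter (fun q => ¬ GW H ⌊(x : ℝ) ^ κ⌋₊ N q) ⊆
        ((Ioc N (N + H)).filter Nat.Prime).biUnion (fun p => M.filter (fun q => ¬ AllR p q R)) := by
      intro q hq
      rw [mem_filter] at hq
      obtain ⟨hqM, hq2⟩ := hq
      unfold GW at hq2
      push Not at hq2
      obtain ⟨p, hp, hpp, hq3⟩ := hq2
      rw [mem_biUnion]
      refine ⟨p, mem_filter.2 ⟨hp, hpp⟩, mem_filter.2 ⟨hqM, fun h => hq3 (h.mono ?_)⟩⟩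
      rw [hR]
      exact Nat.floor_mono hpow
    refine (card_le_card hsub2).trans (card_biUnion_le.trans ?_)
    calc ∑ p ∈ (Ioc N (N + H)).filter Nat.Prime, (M.filter (fun q => ¬ AllR p q R)).card
        ≤ ∑ _p ∈ (Ioc N (N + H)).filter Nat.Prime, K₀ * k := by
          apply sum_le_sum
          intro p hp
          rw [mem_filter] at hp
          exact hpt p hp.1 hp.2
      _ ≤ H * (K₀ * k) := by
          rw [sum_const, smul_eq_mul]
          apply Nat.mul_le_mul_right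
          refine (card_filter_le _ _).trans ?_
          rw [Nat.card_Ioc]
          omega
  have h4 : (((Icc 1 x).filter (fun N => Win m H c x N ∧
        H * (K₀ * k) < (M.filter (fun q => ¬ GW H ⌊(x : ℝ) ^ κ⌋₊ N q)).card)).card : ℝ) ≤
      ((Ex X z k R M).card + R) * H := by
    have h5 := (card_le_card hsub).trans (card_biUnion_le.trans (sum_le_card_nsmul _ _ H
      (fun p _ => by rw [Nat.card_Ico]; omega)))
    rw [smul_eq_mul] at h5
    have h6 : (Ex X z k R M ∪ Icc 1 R).card ≤ (Ex X z k R M).card + R := by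
      refine (card_union_le _ _).trans ?_
      rw [Nat.card_Icc, Nat.add_sub_cancel]
    have h7 := h5.trans (Nat.mul_le_mul_right H h6)
    exact_mod_cast h7
  refine h4.trans ?_
  have hc8 : c / 2 / 4 = c / 8 := by ring
  have h5 : (X : ℝ) ^ (1 - c / 2 / 4) ≤ 2 * (x : ℝ) ^ (1 - c / 8) := by
    rw [hc8]
    calc (X : ℝ) ^ (1 - c / 8) ≤ (2 * (x : ℝ)) ^ (1 - c / 8) :=
          Real.rpow_le_rpow hX0.le hX2 (by linarith)
      _ = 2 ^ (1 - c / 8) * (x : ℝ) ^ (1 - c / 8) := Real.mul_rpow (by norm_num) hx0.le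
      _ ≤ 2 * (x : ℝ) ^ (1 - c / 8) := by
          apply mul_le_mul_of_nonneg_right _ (by positivity)
          calc (2 : ℝ) ^ (1 - c / 8) ≤ 2 ^ (1 : ℝ) :=
                Real.rpow_le_rpow_of_exponent_le (by norm_num) (by linarith)
            _ = 2 := Real.rpow_one _
  have h6 : (R : ℝ) ≤ 2 * (x : ℝ) ^ (1 - c / 8) := by
    refine (hRX.trans ?_).trans h5
    apply Real.rpow_le_rpow_of_exponent_le (by linarith)
    linarith
  have h7 : ((Ex X z k R M).card : ℝ) ≤ 2 * (x : ℝ) ^ (1 - c / 8) := hEx.trans h5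
  have hxp : 0 < (x : ℝ) ^ (1 - c / 8) := by positivity
  have hH0 : (0 : ℝ) ≤ H := Nat.cast_nonneg H
  calc (((Ex X z k R M).card : ℝ) + R) * H
      ≤ (2 * (x : ℝ) ^ (1 - c / 8) + 2 * (x : ℝ) ^ (1 - c / 8)) * H := by gcongr
    _ ≤ (8 * (H + 1)) * (x : ℝ) ^ (1 - c / 8) := by nlinarith
    _ ≤ (x : ℝ) ^ ((c / 2) / 8) * (x : ℝ) ^ (1 - c / 8) :=
        mul_le_mul_of_nonneg_right hx3 hxp.le
    _ = (x : ℝ) ^ ((c / 2) / 8 + (1 - c / 8)) := by rw [← Real.rpow_add hx0]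
    _ ≤ (x : ℝ) ^ (1 - κ) := by
        apply Real.rpow_le_rpow_of_exponent_le (by linarith)
        linarith

end Pool.Agent.Y892.TB
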