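import Pool.Agent.Y892.TB.A5

/-!
Primes modulo which several independent members of a given set of integers are `l`-th powers;
triangular families of exponent vectors.
-/

set_option autoImplicit false

open Finset Filter

namespace Pool.Agent.Y892.TB

open Pool.Agent.Y855

open Classical in
/-- the primes `p ≤ x` modulo which, for some prime `l > z` dividing `p - 1`, there are `k`
multiplicatively independent members of `V` which are `l`-th powers -/
noncomputable def ExV (x z k : ℕ) (V : Finset ℤ) : Finset ℕ :=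
  (Icc 1 x).filter (fun p => p.Prime ∧ ∃ l : ℕ, l.Prime ∧ l ∣ p - 1 ∧ z < l ∧
    ∃ J : Finset ℤ, J ⊆ V ∧ J.card = k ∧ MI J ∧ ∀ n ∈ J, ¬ (p : ℤ) ∣ n ∧
      (n : ZMod p) ^ ((p - 1) / l) = 1)

open Classical in
theorem ExV_card (x z k L A : ℕ) (V : Finset ℤ) (hV : ∀ n ∈ V, n ≠ 0 ∧ n.natAbs ≤ 2 ^ L)
    (hA : x ≤ z * A ^ k) :
    (ExV x z k V).card ≤ V.card ^ k * ((2 * A + 1) ^ k * (1 + (L + 1) * (k * A))) := by
  set T : Finset ℤ → Finset ℕ := fun J => (ExV x z k V).filter (fun p =>
    (∀ n ∈ J, ¬ (p : ℤ) ∣ n) ∧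
    ∃ k' : ℕ, 0 < k' ∧ k' < A ^ k ∧ ∀ n ∈ J, (n : ZMod p) ^ k' = 1) with hT
  have hsub : ExV x z k V ⊆ ((V.powersetCard k).filter (fun J => MI J)).biUnion T := by
    intro p hp
    have hp' := hp
    unfold ExV at hp
    rw [mem_filter, mem_Icc] at hp
    obtain ⟨⟨hp1, hpx⟩, hpp, l, hl, hlp, hzl, J, hJV, hJk, hJ, hJn⟩ := hp
    rw [mem_biUnion]
    refine ⟨J, mem_filter.2 ⟨mem_powersetCard.2 ⟨hJV, hJk⟩, hJ⟩, ?_⟩
    simp only [hT]
    rw [mem_filter]
    have hp0 : 0 < p - 1 := by have := hpp.two_le; omega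
    refine ⟨hp', fun n hn => (hJn n hn).1, (p - 1) / l, ?_, ?_, fun n hn => (hJn n hn).2⟩
    · exact Nat.div_pos (Nat.le_of_dvd hp0 hlp) hl.pos
    · by_contra hcon
      push Not at hcon
      have h2 : (p - 1) / l * l = p - 1 := Nat.div_mul_cancel hlp
      have h3 : A ^ k * (z + 1) ≤ (p - 1) / l * l := Nat.mul_le_mul hcon hzl
      have h4 : A ^ k * (z + 1) = z * A ^ k + A ^ k := by ring
      omega
  refine (card_le_card hsub).trans (card_biUnion_le.trans ?_)
  calc ∑ J ∈ (V.powersetCard k).filter (fun J => MI J), (T J).card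
      ≤ ∑ _J ∈ (V.powersetCard k).filter (fun J => MI J),
        ((2 * A + 1) ^ k * (1 + (L + 1) * (k * A))) := by
        apply sum_le_sum
        intro J hJ
        rw [mem_filter, mem_powersetCard] at hJ
        have h2 := rank_one J (fun n hn => (hV n (hJ.1.1 hn)).1) hJ.2 (2 ^ L) A
          Nat.one_le_two_pow (fun n hn => (hV n (hJ.1.1 hn)).2) (T J) (by
            intro p hp
            simp only [hT] at hp
            rw [mem_filter] at hp
            obtain ⟨hp1, hp2, hp3⟩ := hp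
            unfold ExV at hp1
            rw [mem_filter] at hp1
            rw [hJ.1.2]
            exact ⟨hp1.2.1, hp2, hp3⟩)
        rw [hJ.1.2, Nat.log_pow (by norm_num)] at h2
        exact h2
    _ = ((V.powersetCard k).filter (fun J => MI J)).card *
        ((2 * A + 1) ^ k * (1 + (L + 1) * (k * A))) := by
        rw [sum_const, smul_eq_mul]
    _ ≤ V.card ^ k * ((2 * A + 1) ^ k * (1 + (L + 1) * (k * A))) := by
        apply Nat.mul_le_mul_right
        refine (card_filter_le _ _).trans ?_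
        rw [card_powersetCard]
        exact Nat.choose_le_pow _ _

/-- the monomial with exponents `s` and `r` -/
def mon (M : Finset ℕ) (b : ℕ × (ℕ → ℕ)) : ℤ := 2 ^ b.1 * ∏ m ∈ M, (m : ℤ) ^ (b.2 m)

theorem mon_ne {M : Finset ℕ} (h1 : ∀ m ∈ M, 1 ≤ m) (b : ℕ × (ℕ → ℕ)) : mon M b ≠ 0 := by
  unfold mon
  refine mul_ne_zero (pow_ne_zero _ (by norm_num)) (prod_ne_zero_iff.2 fun m hm => pow_ne_zero _ ?_)
  have := h1 m hm
  exact_mod_cast (by omega : m ≠ 0)

/-- either few members of `M` meet the supports of all vectors in `B`, or there is a long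
triangular family in `B` -/
theorem tri (M : Finset ℕ) (B : Set (ℕ × (ℕ → ℕ))) (hB : ∀ b ∈ B, ∃ m ∈ M, b.2 m ≠ 0) (k : ℕ) :
    (∃ E ⊆ M, E.card < k ∧ ∀ b ∈ B, ∃ m ∈ E, b.2 m ≠ 0) ∨
    ∃ (b : Fin k → ℕ × (ℕ → ℕ)) (m : Fin k → ℕ), (∀ i, b i ∈ B) ∧ (∀ i, m i ∈ M) ∧
      (∀ i, (b i).2 (m i) ≠ 0) ∧ ∀ i j, i < j → (b j).2 (m i) = 0 := by
  classical
  induction k with
  | zero => exact Or.inr ⟨fun i => i.elim0, fun i => i.elim0, fun i => i.elim0, fun i => i.elim0,
      fun i => i.elim0, fun i => i.elim0⟩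
  | succ k ih =>
    rcases ih with ⟨E, hE, hEk, hEB⟩ | ⟨b, m, hb, hm, hbm, htri⟩
    · exact Or.inl ⟨E, hE, by omega, hEB⟩
    · by_cases hcov : ∀ b' ∈ B, ∃ i, b'.2 (m i) ≠ 0
      · left
        refine ⟨univ.image m, ?_, ?_, ?_⟩
        · intro t ht
          rw [mem_image] at ht
          obtain ⟨i, -, rfl⟩ := ht
          exact hm i
        · exact lt_of_le_of_lt card_image_le (by simp)
        · intro b' hb'
          obtain ⟨i, hi⟩ := hcov b' hb'
          exact ⟨m i, mem_image_of_mem _ (mem_univ _), hi⟩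
      · right
        push Not at hcov
        obtain ⟨b', hb', hz⟩ := hcov
        obtain ⟨t, ht, htb⟩ := hB b' hb'
        refine ⟨Fin.snoc b b', Fin.snoc m t, ?_, ?_, ?_, ?_⟩
        · intro i
          refine Fin.lastCases ?_ (fun i => ?_) i
          · rw [Fin.snoc_last]; exact hb'
          · rw [Fin.snoc_castSucc]; exact hb i
        · intro i
          refine Fin.lastCases ?_ (fun i => ?_) i
          · rw [Fin.snoc_last]; exact ht
          · rw [Fin.snoc_castSucc]; exact hm i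
        · intro i
          refine Fin.lastCases ?_ (fun i => ?_) i
          · rw [Fin.snoc_last, Fin.snoc_last]; exact htb
          · rw [Fin.snoc_castSucc, Fin.snoc_castSucc]; exact hbm i
        · intro i j
          refine Fin.lastCases ?_ (fun j => ?_) j
          · refine Fin.lastCases ?_ (fun i => ?_) i
            · intro h; exact absurd h (lt_irrefl _)
            · intro _
              rw [Fin.snoc_last, Fin.snoc_castSucc]
              exact hz i
          · refine Fin.lastCases ?_ (fun i => ?_) i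
            · intro h
              exact absurd h (not_lt.2 (Fin.le_last _))
            · intro h
              rw [Fin.snoc_castSucc, Fin.snoc_castSucc]
              exact htri i j (by simpa using h)

/-- the values of a triangular family have no multiplicative relation -/
theorem tri_rel {M : Finset ℕ} (hM : Ind2 M) (h1 : ∀ m ∈ M, 1 ≤ m) {k : ℕ}
    (b : Fin k → ℕ × (ℕ → ℕ)) (m : Fin k → ℕ) (hm : ∀ i, m i ∈ M)
    (hbm : ∀ i, (b i).2 (m i) ≠ 0) (htri : ∀ i j, i < j → (b j).2 (m i) = 0)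
    (c : Fin k → ℤ) (hc : ∏ i, ((mon M (b i) : ℤ) : ℚ) ^ (c i) = 1) : ∀ i, c i = 0 := by
  have h2 : ∏ i, ((mon M (b i) : ℤ) : ℚ) ^ (c i) =
      (2 : ℚ) ^ (∑ i, (((b i).1 : ℕ) : ℤ) * c i) *
        ∏ t ∈ M, (t : ℚ) ^ (∑ i, (((b i).2 t : ℕ) : ℤ) * c i) := by
    have e1 : ∀ i, ((mon M (b i) : ℤ) : ℚ) ^ (c i) =
        (2 : ℚ) ^ ((((b i).1 : ℕ) : ℤ) * c i) * ∏ t ∈ M, (t : ℚ) ^ ((((b i).2 t : ℕ) : ℤ) * c i) := by
      intro i
      unfold mon
      push_cast
      rw [mul_zpow, ← Finset.prod_zpow, ← zpow_natCast, ← zpow_mul]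
      congr 1
      apply prod_congr rfl
      intro t _
      rw [← zpow_natCast, ← zpow_mul]
    simp only [e1]
    rw [prod_mul_distrib, Finset.prod_comm]
    congr 1
    · induction (univ : Finset (Fin k)) using Finset.induction_on with
      | empty => simp
      | insert a s ha ih => rw [prod_insert ha, sum_insert ha, zpow_add₀ (by norm_num), ih]
    · apply prod_congr rfl
      intro t ht
      have ht0 : (t : ℚ) ≠ 0 := by
        have := h1 t ht
        exact_mod_cast (by omega : t ≠ 0)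
      induction (univ : Finset (Fin k)) using Finset.induction_on with
      | empty => simp
      | insert a s ha ih => rw [prod_insert ha, sum_insert ha, zpow_add₀ ht0, ih]
  rw [h2] at hc
  have h3 := hM _ (fun t => ∑ i, (((b i).2 t : ℕ) : ℤ) * c i) hc
  intro i
  induction i using WellFoundedLT.induction with
  | ind i ih =>
    have h4 := h3 (m i) (hm i)
    rw [Finset.sum_eq_single i] at h4
    · rcases mul_eq_zero.1 h4 with h5 | h5
      · exact absurd (by exact_mod_cast h5) (hbm i)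
      · exact h5
    · intro j _ hji
      rcases lt_or_gt_of_ne hji with h5 | h5
      · rw [ih j h5, mul_zero]
      · rw [htri i j h5]
        simp
    · intro h5
      exact absurd (mem_univ _) h5

theorem tri_inj {M : Finset ℕ} (hM : Ind2 M) (h1 : ∀ m ∈ M, 1 ≤ m) {k : ℕ}
    (b : Fin k → ℕ × (ℕ → ℕ)) (m : Fin k → ℕ) (hm : ∀ i, m i ∈ M)
    (hbm : ∀ i, (b i).2 (m i) ≠ 0) (htri : ∀ i j, i < j → (b j).2 (m i) = 0) :
    Function.Injective (fun i => mon M (b i)) := by
  classical
  intro i j hij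
  simp only at hij
  by_contra hne
  have h2 := tri_rel hM h1 b m hm hbm htri (fun t => if t = i then 1 else if t = j then -1 else 0) (by
    have h0 : ((mon M (b j) : ℤ) : ℚ) ≠ 0 := by exact_mod_cast mon_ne h1 (b j)
    rw [← Finset.mul_prod_erase univ _ (mem_univ i),
      ← Finset.mul_prod_erase (univ.erase i) _ (mem_erase.2 ⟨Ne.symm hne, mem_univ j⟩)]
    rw [if_pos rfl, if_neg (Ne.symm hne), if_pos rfl, hij, prod_eq_one, mul_one, zpow_one, zpow_neg,
      zpow_one, mul_inv_cancel₀ h0]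
    intro t ht
    rw [mem_erase, mem_erase] at ht
    rw [if_neg ht.2.1, if_neg ht.1, zpow_zero]) i
  rw [if_pos rfl] at h2
  exact one_ne_zero h2

theorem tri_MI {M : Finset ℕ} (hM : Ind2 M) (h1 : ∀ m ∈ M, 1 ≤ m) {k : ℕ}
    (b : Fin k → ℕ × (ℕ → ℕ)) (m : Fin k → ℕ) (hm : ∀ i, m i ∈ M)
    (hbm : ∀ i, (b i).2 (m i) ≠ 0) (htri : ∀ i j, i < j → (b j).2 (m i) = 0) :
    MI (univ.image (fun i => mon M (b i))) := by
  classical
  intro c hc n hn
  rw [prod_image (fun i _ j _ h => tri_inj hM h1 b m hm hbm htri h)] at hc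
  rw [mem_image] at hn
  obtain ⟨i, -, rfl⟩ := hn
  exact tri_rel hM h1 b m hm hbm htri (fun i => c (mon M (b i))) hc i

end Pool.Agent.Y892.TB
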