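import Pool.Agent.Y892.TB.C1

/-!
The pointwise statement: for all sifted primes outside the exceptional set, few members of `M` meet
the supports of all monomials which are not primitive roots.
-/

set_option autoImplicit false

open Finset Filter

namespace Pool.Agent.Y892.TB

open Pool.Agent.Y855

/-- `g` is a power of two times a product of members of `F`, at least one -/
def Gen (F : Finset ℕ) (g : ℕ) : Prop :=
  ∃ (a : ℕ) (e : ℕ → ℕ), (∃ m ∈ F, e m ≠ 0) ∧ g = 2 ^ a * ∏ m ∈ F, m ^ (e m)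

theorem Gen.mono {F F' : Finset ℕ} (hF : F ⊆ F') {g : ℕ} (h : Gen F g) : Gen F' g := by
  classical
  obtain ⟨a, e, ⟨m, hm, hme⟩, rfl⟩ := h
  refine ⟨a, fun t => if t ∈ F then e t else 0, ⟨m, hF hm, by simp only; rw [if_pos hm]; exact hme⟩, ?_⟩
  congr 1
  rw [← prod_subset hF]
  · apply prod_congr rfl
    intro t ht
    simp only
    rw [if_pos ht]
  · intro t _ ht
    simp only
    rw [if_neg ht, pow_zero]

/-- `2 g ^ 2` is a primitive root modulo `p` -/
def PR (p g : ℕ) : Prop := orderOf ((2 * g ^ 2 : ℕ) : ZMod p) = p - 1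

theorem PR_of {p g : ℕ} (hp : p.Prime) (h8 : p % 8 = 3) (hg : ¬ p ∣ g)
    (h : ∀ l : ℕ, l.Prime → 3 ≤ l → l ∣ p - 1 →
      (((2 * g ^ 2 : ℕ) : ℤ) : ZMod p) ^ ((p - 1) / l) ≠ 1) : PR p g := by
  have : Fact p.Prime := ⟨hp⟩
  unfold PR
  have hp1 : 0 < p - 1 := by have := hp.two_le; omega
  have hg0 : (g : ZMod p) ≠ 0 := by
    rwa [Ne, ZMod.natCast_eq_zero_iff]
  have h20 : (2 : ZMod p) ≠ 0 := by
    intro h'
    have h1 := two_pow_half hp h8
    rw [h', zero_pow (by omega)] at h1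
    have h2 : (1 : ZMod p) = 0 := by
      have : (1 : ZMod p) = - (-1) := by ring
      rw [this, ← h1, neg_zero]
    exact one_ne_zero h2
  have ha : ((2 * g ^ 2 : ℕ) : ZMod p) ≠ 0 := by
    push_cast
    exact mul_ne_zero h20 (pow_ne_zero _ hg0)
  apply orderOf_eq_of_pow_and_pow_div_prime hp1
  · exact ZMod.pow_card_sub_one_eq_one ha
  · intro q hq hqd
    by_cases hq2 : q = 2
    · subst hq2
      have h2 : 2 * ((p - 1) / 2) = p - 1 := Nat.mul_div_cancel' hqd
      push_cast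
      rw [mul_pow, ← pow_mul, two_pow_half hp h8, h2, ZMod.pow_card_sub_one_eq_one hg0, mul_one]
      intro h3
      have h4 : (2 : ZMod p) = 0 := by
        have : (2 : ZMod p) = 1 - (-1) := by ring
        rw [this, h3, sub_self]
      exact h20 h4
    · have h3 : 3 ≤ q := by have := hq.two_le; omega
      have h4 := h q hq h3 hqd
      rwa [Int.cast_natCast] at h4

open Classical in
/-- the values `2 g ^ 2` -/
noncomputable def VG (G : Finset ℕ) : Finset ℤ := G.image (fun g => ((2 * g ^ 2 : ℕ) : ℤ))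

open Classical in
theorem pointwise (x z k K₀ : ℕ) (M G : Finset ℕ) (hM : Ind2 M) (h1 : ∀ m ∈ M, 1 ≤ m)
    (hK : x ≤ (z + 1) ^ K₀) {p : ℕ} (hp : p ∈ T8 x z) (hpE : p ∉ ExV x z k (VG G))
    (hpM : ∀ m ∈ M, m < p) :
    ∃ E ⊆ M, E.card ≤ K₀ * k ∧ ∀ g ∈ G, Gen (M \ E) g → PR p g := by
  rw [mem_T8] at hp
  obtain ⟨⟨hp1, hpx⟩, hpp, h8, hsm⟩ := hp
  have hp2 : p ≠ 2 := by rintro rfl; norm_num at h8
  have hpi : Prime (p : ℤ) := Nat.prime_iff_prime_int.1 hpp
  have hnd : ∀ m ∈ M, ¬ p ∣ m := by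
    intro m hm hd
    have h2 := Nat.le_of_dvd (h1 m hm) hd
    have h3 := hpM m hm
    omega
  have hndm : ∀ b : ℕ × (ℕ → ℕ), ¬ (p : ℤ) ∣ mon M b := by
    intro b hd
    unfold mon at hd
    rcases hpi.dvd_or_dvd hd with h | h
    · have h2 := hpi.dvd_of_dvd_pow h
      have h3 : p ∣ 2 := by exact_mod_cast h2
      exact hp2 ((Nat.prime_dvd_prime_iff_eq hpp Nat.prime_two).1 h3)
    · obtain ⟨m, hm, h2⟩ := (Prime.dvd_finsetProd_iff hpi _).1 h
      have h3 := hpi.dvd_of_dvd_pow h2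
      exact hnd m hm (by exact_mod_cast h3)
  -- the bad vectors
  have hchoice : ∀ l ∈ LFp z p, ∃ E ⊆ M, E.card < k + 1 ∧
      ∀ b : ℕ × (ℕ → ℕ), (∃ m ∈ M, b.2 m ≠ 0) → mon M b ∈ VG G →
        (mon M b : ZMod p) ^ ((p - 1) / l) = 1 → ∃ m ∈ E, b.2 m ≠ 0 := by
    intro l hl
    unfold LFp at hl
    rw [mem_filter] at hl
    have hlp := Nat.dvd_of_mem_primeFactors hl.1
    have hlpr := Nat.prime_of_mem_primeFactors hl.1
    rcases tri M {b | (∃ m ∈ M, b.2 m ≠ 0) ∧ mon M b ∈ VG G ∧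
        (mon M b : ZMod p) ^ ((p - 1) / l) = 1} (fun b hb => hb.1) k with
      ⟨E, hE, hEk, hEB⟩ | ⟨b, m, hb, hm, hbm, htri⟩
    · exact ⟨E, hE, by omega, fun b hb1 hb2 hb3 => hEB b ⟨hb1, hb2, hb3⟩⟩
    · exfalso
      apply hpE
      unfold ExV
      rw [mem_filter, mem_Icc]
      refine ⟨⟨hp1, hpx⟩, hpp, l, hlpr, hlp, hl.2, univ.image (fun i => mon M (b i)), ?_, ?_,
        tri_MI hM h1 b m hm hbm htri, ?_⟩
      · intro n hn
        rw [mem_image] at hn
        obtain ⟨i, -, rfl⟩ := hn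
        exact (hb i).2.1
      · rw [card_image_of_injective _ (tri_inj hM h1 b m hm hbm htri), card_univ, Fintype.card_fin]
      · intro n hn
        rw [mem_image] at hn
        obtain ⟨i, -, rfl⟩ := hn
        exact ⟨hndm _, (hb i).2.2⟩
  have hchoice' : ∀ l : ℕ, ∃ E ⊆ M, E.card < k + 1 ∧ (l ∈ LFp z p →
      ∀ b : ℕ × (ℕ → ℕ), (∃ m ∈ M, b.2 m ≠ 0) → mon M b ∈ VG G →
        (mon M b : ZMod p) ^ ((p - 1) / l) = 1 → ∃ m ∈ E, b.2 m ≠ 0) := by
    intro l
    by_cases hl : l ∈ LFp z p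
    · obtain ⟨E, h2, h3, h4⟩ := hchoice l hl
      exact ⟨E, h2, h3, fun _ => h4⟩
    · exact ⟨∅, empty_subset _, by simp, fun h => absurd h hl⟩
  choose E hEM hEk hE using hchoice'
  refine ⟨(LFp z p).biUnion E, ?_, ?_, ?_⟩
  · intro t ht
    rw [mem_biUnion] at ht
    obtain ⟨l, -, ht⟩ := ht
    exact hEM l ht
  · calc ((LFp z p).biUnion E).card ≤ ∑ l ∈ LFp z p, (E l).card := card_biUnion_le
      _ ≤ ∑ _l ∈ LFp z p, k := sum_le_sum fun l _ => by have := hEk l; omega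
      _ = (LFp z p).card * k := by rw [sum_const, smul_eq_mul]
      _ ≤ K₀ * k := Nat.mul_le_mul_right k (LFp_card hpp hpx hK)
  · intro g hg hgen
    obtain ⟨a, e, ⟨m, hm, hme⟩, hge⟩ := hgen
    rw [Finset.mem_sdiff, mem_biUnion] at hm
    -- the exponent vector of `2 g ^ 2`
    set b : ℕ × (ℕ → ℕ) := (2 * a + 1, fun t => if t ∈ M \ (LFp z p).biUnion E then 2 * e t else 0)
      with hb
    have hmon : mon M b = ((2 * g ^ 2 : ℕ) : ℤ) := by
      unfold mon
      rw [hge]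
      push_cast
      have e1 : ∏ t ∈ M, (t : ℤ) ^ (b.2 t) =
          ∏ t ∈ M \ (LFp z p).biUnion E, (t : ℤ) ^ (2 * e t) := by
        rw [← prod_subset (sdiff_subset (s := M) (t := (LFp z p).biUnion E))]
        · apply prod_congr rfl
          intro t ht
          simp only [hb]
          rw [if_pos ht]
        · intro t _ ht
          simp only [hb]
          rw [if_neg ht, pow_zero]
      rw [e1, mul_pow, ← Finset.prod_pow]
      simp only [hb]
      have e2 : ∀ t : ℕ, ((t : ℤ) ^ e t) ^ 2 = (t : ℤ) ^ (2 * e t) := fun t => by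
        rw [← pow_mul, mul_comm]
      simp only [e2]
      ring
    have hgp : ¬ p ∣ g := by
      intro hd
      apply hndm b
      rw [hmon]
      exact_mod_cast dvd_mul_of_dvd_right (dvd_pow hd (by norm_num)) 2
    apply PR_of hpp h8 hgp
    intro l hl hl3 hlp heq
    have hlL : l ∈ LFp z p := by
      unfold LFp
      rw [mem_filter, Nat.mem_primeFactors]
      refine ⟨⟨hl, hlp, by have := hpp.two_le; omega⟩, ?_⟩
      by_contra hzl
      exact hsm l hl hl3 (by omega) hlp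
    have hbm : b.2 m ≠ 0 := by
      simp only [hb]
      rw [if_pos (by rw [Finset.mem_sdiff, mem_biUnion]; exact hm)]
      omega
    obtain ⟨t, ht, hbt⟩ := hE l hlL b ⟨m, hm.1, hbm⟩
      (by rw [hmon]; exact mem_image_of_mem _ hg) (by rw [hmon]; exact heq)
    apply hbt
    simp only [hb]
    rw [if_neg]
    rw [Finset.mem_sdiff, not_and, not_not, mem_biUnion]
    exact fun _ => ⟨l, hlL, ht⟩

end Pool.Agent.Y892.TB
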