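import Pool.Agent.Y892.TB.C2

/-!
The number of the exceptional primes, real form; the theorem for the sifted primes.
-/

set_option autoImplicit false

open Finset Filter

namespace Pool.Agent.Y892.TB

open Pool.Agent.Y855

theorem VG_card (G : Finset ℕ) : (VG G).card ≤ G.card := by
  classical
  unfold VG
  exact card_image_le

theorem VG_bd {G : Finset ℕ} {Y : ℝ} (hG : ∀ g ∈ G, 1 ≤ g ∧ Real.log g ≤ Y) (hY : 0 ≤ Y) :
    ∀ n ∈ VG G, n ≠ 0 ∧ n.natAbs ≤ 2 ^ (⌊3 * Y⌋₊ + 2) := by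
  classical
  intro n hn
  unfold VG at hn
  rw [mem_image] at hn
  obtain ⟨g, hg, rfl⟩ := hn
  obtain ⟨h1, h2⟩ := hG g hg
  have hg0 : (0 : ℝ) < g := by exact_mod_cast h1
  refine ⟨by exact_mod_cast (by positivity : 2 * g ^ 2 ≠ 0), ?_⟩
  rw [Int.natAbs_natCast]
  have hl2 := Real.log_two_gt_d9
  have h3 : Real.log ((2 * g ^ 2 : ℕ) : ℝ) ≤ Real.log ((2 ^ (⌊3 * Y⌋₊ + 2) : ℕ) : ℝ) := by
    push_cast
    rw [Real.log_mul (by norm_num) (by positivity), Real.log_pow, Real.log_pow]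
    have h4 : 3 * Y < ⌊3 * Y⌋₊ + 1 := Nat.lt_floor_add_one _
    push_cast
    nlinarith
  have h5 := (Real.log_le_log_iff (by positivity) (by positivity)).1 h3
  exact_mod_cast h5

theorem ExV_real (c : ℝ) (hc : 0 < c) (hc1 : c < 1) : ∀ᶠ x : ℕ in atTop, ∀ G : Finset ℕ,
    (G.card : ℝ) ≤ (x : ℝ) ^ (ka c) → (∀ g ∈ G, 1 ≤ g ∧ Real.log g ≤ (x : ℝ) ^ (ka c)) →
    ((ExV x ⌊(x : ℝ) ^ c⌋₊ (kk c) (VG G)).card : ℝ) ≤ (x : ℝ) ^ (1 - c / 4) := by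
  obtain ⟨k, hk⟩ : ∃ k, k = kk c := ⟨_, rfl⟩
  obtain ⟨κ, hκ⟩ : ∃ κ, κ = ka c := ⟨_, rfl⟩
  rw [← hk, ← hκ]
  have hk1 : 1 ≤ k := hk ▸ kk_pos hc
  have hkr : (1 : ℝ) ≤ k := by exact_mod_cast hk1
  have hκ0 : 0 < κ := hκ ▸ ka_pos hc
  have hκk : (3 * (k : ℝ) + 3) * κ = c / 8 := by rw [hk, hκ]; exact ka_le hc
  have h3 := tendsto_natCast_atTop_atTop (R := ℝ)
  have e1 : ∀ᶠ x : ℕ in atTop, (2 : ℝ) ≤ (x : ℝ) ^ c :=
    h3.eventually ((tendsto_rpow_atTop hc).eventually_ge_atTop 2)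
  have e2 : ∀ᶠ x : ℕ in atTop, 56 * (k : ℝ) * 6 ^ k ≤ (x : ℝ) ^ (c / 8) :=
    h3.eventually ((tendsto_rpow_atTop (by positivity)).eventually_ge_atTop _)
  filter_upwards [e1, e2, eventually_ge_atTop 1] with x e1 e2 hx1
  intro G hGc hGb
  have hx : (1 : ℝ) ≤ x := by exact_mod_cast hx1
  have hx0 : (0 : ℝ) < x := by linarith
  obtain ⟨z, hz⟩ : ∃ z, z = ⌊(x : ℝ) ^ c⌋₊ := ⟨_, rfl⟩
  rw [← hz]
  have hzr : (x : ℝ) ^ c / 2 ≤ z := by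
    have : (x : ℝ) ^ c < z + 1 := hz ▸ Nat.lt_floor_add_one _
    linarith
  obtain ⟨Y, hY⟩ : ∃ Y, Y = (x : ℝ) ^ κ := ⟨_, rfl⟩
  rw [← hY] at hGc hGb
  have hY1 : 1 ≤ Y := hY ▸ Real.one_le_rpow hx hκ0.le
  -- the size of `A`
  obtain ⟨y, hy⟩ : ∃ y, y = 2 * (x : ℝ) ^ (1 - c) := ⟨_, rfl⟩
  have hxc1 : 1 ≤ (x : ℝ) ^ (1 - c) := Real.one_le_rpow hx (by linarith)
  have hy1 : 1 ≤ y := by rw [hy]; linarith
  have hyk1 : 1 ≤ y ^ (1 / (k : ℝ)) := Real.one_le_rpow hy1 (by positivity)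
  obtain ⟨A, hA⟩ : ∃ A, A = ⌈y ^ (1 / (k : ℝ))⌉₊ := ⟨_, rfl⟩
  have hA1 : y ^ (1 / (k : ℝ)) ≤ A := hA ▸ Nat.le_ceil _
  have hA2 : (A : ℝ) ≤ 2 * y ^ (1 / (k : ℝ)) := by
    have : (A : ℝ) < y ^ (1 / (k : ℝ)) + 1 := hA ▸ Nat.ceil_lt_add_one (by linarith)
    linarith
  have hA0 : (1 : ℝ) ≤ A := hyk1.trans hA1
  have hykk : (y ^ (1 / (k : ℝ))) ^ k = y := by
    rw [← Real.rpow_natCast, ← Real.rpow_mul (by linarith)]
    rw [one_div, inv_mul_cancel₀ (by linarith), Real.rpow_one]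
  have hAk : y ≤ (A : ℝ) ^ k := by
    rw [← hykk]
    exact pow_le_pow_left₀ (by linarith) hA1 k
  have hcond : x ≤ z * A ^ k := by
    have h4 : (x : ℝ) ≤ z * (A : ℝ) ^ k := by
      calc (x : ℝ) = (x : ℝ) ^ c / 2 * y := by
            rw [hy]
            have : (x : ℝ) ^ c * (x : ℝ) ^ (1 - c) = x := by
              rw [← Real.rpow_add hx0, add_sub_cancel, Real.rpow_one]
            linear_combination -this
        _ ≤ z * (A : ℝ) ^ k := by gcongr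
    exact_mod_cast h4
  have hcard := ExV_card x z k (⌊3 * Y⌋₊ + 2) A (VG G) (VG_bd hGb (by linarith)) hcond
  have hcard' : ((ExV x z k (VG G)).card : ℝ) ≤ ((VG G).card : ℝ) ^ k *
      ((2 * (A : ℝ) + 1) ^ k * (1 + ((⌊3 * Y⌋₊ : ℝ) + 2 + 1) * (k * A))) := by
    exact_mod_cast hcard
  have hVc : ((VG G).card : ℝ) ≤ Y := le_trans (by exact_mod_cast VG_card G) hGc
  have s1 : ((VG G).card : ℝ) ^ k ≤ (x : ℝ) ^ (κ * k) := by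
    calc ((VG G).card : ℝ) ^ k ≤ Y ^ k := pow_le_pow_left₀ (by positivity) hVc k
      _ = (x : ℝ) ^ (κ * k) := by rw [hY, ← Real.rpow_natCast, ← Real.rpow_mul hx0.le]
  have s2 : (2 * (A : ℝ) + 1) ^ k ≤ 6 ^ k * (2 * (x : ℝ) ^ (1 - c)) := by
    calc (2 * (A : ℝ) + 1) ^ k ≤ (6 * y ^ (1 / (k : ℝ))) ^ k := by
          apply pow_le_pow_left₀ (by positivity)
          linarith
      _ = 6 ^ k * (2 * (x : ℝ) ^ (1 - c)) := by rw [mul_pow, hykk, hy]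
  have s3 : (A : ℝ) ≤ 4 * (x : ℝ) ^ (c / 2) := by
    have h4 : y ^ (1 / (k : ℝ)) ≤ 2 * (x : ℝ) ^ (c / 2) := by
      rw [hy, Real.mul_rpow (by norm_num) (by positivity)]
      have h5 : (2 : ℝ) ^ (1 / (k : ℝ)) ≤ 2 := by
        calc (2 : ℝ) ^ (1 / (k : ℝ)) ≤ 2 ^ (1 : ℝ) :=
              Real.rpow_le_rpow_of_exponent_le (by norm_num) (by
                rw [div_le_one (by linarith)]; exact hkr)
          _ = 2 := Real.rpow_one _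
      have h6 : ((x : ℝ) ^ (1 - c)) ^ (1 / (k : ℝ)) ≤ (x : ℝ) ^ (c / 2) := by
        rw [← Real.rpow_mul hx0.le]
        apply Real.rpow_le_rpow_of_exponent_le hx
        have h7 : 2 / c ≤ k := hk ▸ Nat.le_ceil _
        rw [mul_one_div, div_le_iff₀ (by linarith)]
        rw [div_le_iff₀ hc] at h7
        nlinarith
      exact mul_le_mul h5 h6 (by positivity) (by norm_num)
    linarith
  have s4 : 1 + ((⌊3 * Y⌋₊ : ℝ) + 2 + 1) * (k * A) ≤ 28 * k * (Y * (x : ℝ) ^ (c / 2)) := by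
    have h4 : (⌊3 * Y⌋₊ : ℝ) ≤ 3 * Y := Nat.floor_le (by linarith)
    have h7 : (1 : ℝ) ≤ k * A := by nlinarith
    calc 1 + ((⌊3 * Y⌋₊ : ℝ) + 2 + 1) * (k * A)
        ≤ Y * (k * A) + (6 * Y) * (k * A) := by
          have h8 : (1 : ℝ) ≤ Y * (k * A) := by nlinarith
          have h9 : ((⌊3 * Y⌋₊ : ℝ) + 2 + 1) * (k * A) ≤ (6 * Y) * (k * A) := by
            apply mul_le_mul_of_nonneg_right _ (by positivity)
            linarith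
          linarith
      _ = 7 * k * (Y * A) := by ring
      _ ≤ 7 * k * (Y * (4 * (x : ℝ) ^ (c / 2))) := by gcongr
      _ = _ := by ring
  have hκs : κ * k + (1 - c) + κ + c / 2 + c / 8 ≤ 1 - c / 4 := by nlinarith
  calc ((ExV x z k (VG G)).card : ℝ) ≤ _ := hcard'
    _ ≤ (x : ℝ) ^ (κ * k) * ((6 ^ k * (2 * (x : ℝ) ^ (1 - c))) *
        (28 * k * (Y * (x : ℝ) ^ (c / 2)))) :=
        mul_le_mul s1 (mul_le_mul s2 s4 (by positivity) (by positivity)) (by positivity)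
          (by positivity)
    _ = (56 * k * 6 ^ k) * ((x : ℝ) ^ (κ * k) * (x : ℝ) ^ (1 - c) * (x : ℝ) ^ κ *
        (x : ℝ) ^ (c / 2)) := by
        rw [hY]; ring
    _ = (56 * k * 6 ^ k) * (x : ℝ) ^ (κ * k + (1 - c) + κ + c / 2) := by
        rw [Real.rpow_add hx0, Real.rpow_add hx0, Real.rpow_add hx0]
    _ ≤ (x : ℝ) ^ (c / 8) * (x : ℝ) ^ (κ * k + (1 - c) + κ + c / 2) :=
        mul_le_mul_of_nonneg_right e2 (by positivity)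
    _ = (x : ℝ) ^ (κ * k + (1 - c) + κ + c / 2 + c / 8) := by
        rw [← Real.rpow_add hx0]; congr 1; ring
    _ ≤ (x : ℝ) ^ (1 - c / 4) := Real.rpow_le_rpow_of_exponent_le hx hκs

/-- the exponent condition -/
theorem pow_cond {x z K₀ : ℕ} {c : ℝ} (hc : 0 < c) (hx : 1 ≤ x) (hz : z = ⌊(x : ℝ) ^ c⌋₊)
    (hK₀ : K₀ = ⌈1 / c⌉₊) : x ≤ (z + 1) ^ K₀ := by
  have hxr : (1 : ℝ) ≤ x := by exact_mod_cast hx
  have h4 : (x : ℝ) ^ c ≤ (z : ℝ) + 1 := hz ▸ (Nat.lt_floor_add_one _).le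
  have h5 : (x : ℝ) ≤ ((z : ℝ) + 1) ^ K₀ := by
    calc (x : ℝ) = ((x : ℝ) ^ c) ^ (1 / c) := by
          rw [← Real.rpow_mul (by linarith), mul_one_div, div_self hc.ne', Real.rpow_one]
      _ ≤ ((x : ℝ) ^ c) ^ (K₀ : ℝ) := by
          apply Real.rpow_le_rpow_of_exponent_le
          · exact Real.one_le_rpow hxr hc.le
          · rw [hK₀]; exact Nat.le_ceil _
      _ ≤ ((z : ℝ) + 1) ^ (K₀ : ℝ) := Real.rpow_le_rpow (by positivity) h4 (Nat.cast_nonneg _)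
      _ = _ := Real.rpow_natCast _ _
  exact_mod_cast h5

/-- `G` is a good family: all members of `G` generated by two and `M` without few members -/
def Few (K : ℕ) (M G : Finset ℕ) (P : ℕ → Prop) : Prop := ∃ E ⊆ M, E.card ≤ K ∧
  ∀ g ∈ G, Gen (M \ E) g → P g

theorem Gen.pos {F : Finset ℕ} (h1 : ∀ m ∈ F, 1 ≤ m) {g : ℕ} (h : Gen F g) : 1 ≤ g := by
  obtain ⟨a, e, -, rfl⟩ := h
  have : 0 < 2 ^ a * ∏ m ∈ F, m ^ (e m) :=
    Nat.mul_pos (by positivity) (Finset.prod_pos fun m hm => Nat.pow_pos (h1 m hm))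
  omega

open Classical in
theorem mainC : ∃ c κ η : ℝ, ∃ K : ℕ, 0 < c ∧ 0 < κ ∧ κ ≤ 1 / 2 ∧ 0 < η ∧ ∀ᶠ x : ℕ in atTop,
    η * ((x : ℝ) / (Real.log x) ^ 2) ≤ ((T8 x ⌊(x : ℝ) ^ c⌋₊).card : ℝ) ∧
    ∀ M G : Finset ℕ, Ind2 M → (∀ m ∈ M, 1 ≤ m ∧ (m : ℝ) ≤ (x : ℝ) ^ κ) →
      (G.card : ℝ) ≤ (x : ℝ) ^ κ → (∀ g ∈ G, Real.log g ≤ (x : ℝ) ^ κ) →
      (((T8 x ⌊(x : ℝ) ^ c⌋₊).filter (fun p => ¬ Few K M G (PR p))).card : ℝ) ≤
        (x : ℝ) ^ (1 - κ) := by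
  obtain ⟨c, hc, hc1, η, hη, hT⟩ := T8_lower
  obtain ⟨K₀, hK₀⟩ : ∃ K₀ : ℕ, K₀ = ⌈1 / c⌉₊ := ⟨_, rfl⟩
  obtain ⟨κ, hκ⟩ : ∃ κ, κ = ka c := ⟨_, rfl⟩
  obtain ⟨k, hk⟩ : ∃ k, k = kk c := ⟨_, rfl⟩
  have hκ0 : 0 < κ := hκ ▸ ka_pos hc
  have hκk : (3 * (k : ℝ) + 3) * κ = c / 8 := by rw [hk, hκ]; exact ka_le hc
  have hk0 : (0 : ℝ) ≤ k := Nat.cast_nonneg k
  have hκc : κ ≤ c / 24 := by nlinarith
  refine ⟨c, κ, η, K₀ * k, hc, hκ0, by linarith, hη, ?_⟩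
  have h3 := tendsto_natCast_atTop_atTop (R := ℝ)
  have e1 : ∀ᶠ x : ℕ in atTop, 2 ≤ (x : ℝ) ^ (c / 8) :=
    h3.eventually ((tendsto_rpow_atTop (by positivity)).eventually_ge_atTop _)
  filter_upwards [hT, ExV_real c hc hc1, e1, eventually_ge_atTop 3] with x hx1 hx2 hx3 hx4
  refine ⟨hx1, fun M G hM hMb hGc hGb => ?_⟩
  have hx : (3 : ℝ) ≤ x := by exact_mod_cast hx4
  have hx0 : (0 : ℝ) < x := by linarith
  obtain ⟨z, hz⟩ : ∃ z, z = ⌊(x : ℝ) ^ c⌋₊ := ⟨_, rfl⟩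
  obtain ⟨G', hG'⟩ : ∃ G', G' = G.filter (fun g => 1 ≤ g) := ⟨_, rfl⟩
  have hEx := hx2 G' (by
    rw [← hκ]
    refine le_trans ?_ hGc
    rw [hG']
    exact_mod_cast card_filter_le _ _) (by
    intro g hg
    rw [hG', mem_filter] at hg
    rw [← hκ]
    exact ⟨hg.2, hGb g hg.1⟩)
  rw [← hz, ← hk] at hEx
  have hK := pow_cond hc (by omega) hz hK₀
  have hsub : (T8 x ⌊(x : ℝ) ^ c⌋₊).filter (fun p => ¬ Few (K₀ * k) M G (PR p)) ⊆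
      ExV x z k (VG G') ∪ Icc 1 ⌊(x : ℝ) ^ κ⌋₊ := by
    intro p hp
    rw [mem_filter, ← hz] at hp
    obtain ⟨hpT, hpF⟩ := hp
    by_contra hcon
    rw [mem_union, not_or, mem_Icc] at hcon
    apply hpF
    have hp1 : 1 ≤ p := (mem_T8.1 hpT).1.1
    obtain ⟨E, hE, hEc, hg⟩ := pointwise x z k K₀ M G' hM (fun m hm => (hMb m hm).1) hK hpT hcon.1
      (fun m hm => by
        have h4 : m ≤ ⌊(x : ℝ) ^ κ⌋₊ := Nat.le_floor (hMb m hm).2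
        omega)
    refine ⟨E, hE, hEc, fun g hgG hgen => hg g ?_ hgen⟩
    rw [hG', mem_filter]
    exact ⟨hgG, hgen.pos fun m hm => (hMb m (sdiff_subset hm)).1⟩
  have h5 : (((T8 x ⌊(x : ℝ) ^ c⌋₊).filter (fun p => ¬ Few (K₀ * k) M G (PR p))).card : ℝ) ≤
      (ExV x z k (VG G')).card + (x : ℝ) ^ κ := by
    have h6 := (card_le_card hsub).trans (card_union_le _ _)
    rw [Nat.card_Icc, Nat.add_sub_cancel] at h6
    have h7 : (((T8 x ⌊(x : ℝ) ^ c⌋₊).filter (fun p => ¬ Few (K₀ * k) M G (PR p))).card : ℝ) ≤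
      (ExV x z k (VG G')).card + (⌊(x : ℝ) ^ κ⌋₊ : ℝ) := by exact_mod_cast h6
    refine h7.trans ?_
    gcongr
    exact Nat.floor_le (by positivity)
  have h6 : (x : ℝ) ^ κ ≤ (x : ℝ) ^ (1 - c / 4) :=
    Real.rpow_le_rpow_of_exponent_le (by linarith) (by linarith)
  calc _ ≤ _ := h5
    _ ≤ (x : ℝ) ^ (1 - c / 4) + (x : ℝ) ^ (1 - c / 4) := add_le_add hEx h6
    _ = 2 * (x : ℝ) ^ (1 - c / 4) := by ring
    _ ≤ (x : ℝ) ^ (c / 8) * (x : ℝ) ^ (1 - c / 4) :=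
        mul_le_mul_of_nonneg_right hx3 (by positivity)
    _ = (x : ℝ) ^ (c / 8 + (1 - c / 4)) := by rw [← Real.rpow_add hx0]
    _ ≤ (x : ℝ) ^ (1 - κ) := Real.rpow_le_rpow_of_exponent_le (by linarith) (by linarith)

end Pool.Agent.Y892.TB
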