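import Pool.Agent.Y892.TB.C3

/-!
Compactness for hitting sets; the number of the integers generated by a finite set.
-/

set_option autoImplicit false

open Finset Filter

namespace Pool.Agent.Y892.TB

/-- **Compactness.** If every finite subfamily of a family of finite sets has a hitting set with at
most `K` elements, then so has the whole family. -/
theorem hitting (K : ℕ) : ∀ B : Set (Finset ℕ), (∀ G : Finset (Finset ℕ), (G : Set (Finset ℕ)) ⊆ B →
    ∃ E : Finset ℕ, E.card ≤ K ∧ ∀ F ∈ G, (F ∩ E).Nonempty) →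
    ∃ E : Finset ℕ, E.card ≤ K ∧ ∀ F ∈ B, (F ∩ E).Nonempty := by
  classical
  induction K with
  | zero =>
    intro B h
    refine ⟨∅, by simp, fun F hF => ?_⟩
    obtain ⟨E, hE, h2⟩ := h {F} (by simpa using hF)
    have h3 := h2 F (mem_singleton_self _)
    rw [Finset.card_eq_zero.1 (Nat.le_zero.1 hE)] at h3
    simp at h3
  | succ K ih =>
    intro B h
    by_cases hB : B = ∅
    · exact ⟨∅, by simp, fun F hF => by rw [hB] at hF; exact absurd hF (Set.notMem_empty _)⟩
    obtain ⟨F0, hF0⟩ := Set.nonempty_iff_ne_empty.2 hB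
    by_cases hgood : ∃ a ∈ F0, ∀ G : Finset (Finset ℕ), (G : Set (Finset ℕ)) ⊆ {F | F ∈ B ∧ a ∉ F} →
        ∃ E : Finset ℕ, E.card ≤ K ∧ ∀ F ∈ G, (F ∩ E).Nonempty
    · obtain ⟨a, -, ha⟩ := hgood
      obtain ⟨E, hE, h2⟩ := ih _ ha
      refine ⟨insert a E, (card_insert_le _ _).trans (by omega), fun F hF => ?_⟩
      by_cases haF : a ∈ F
      · exact ⟨a, mem_inter.2 ⟨haF, mem_insert_self _ _⟩⟩
      · obtain ⟨t, ht⟩ := h2 F ⟨hF, haF⟩
        rw [mem_inter] at ht
        exact ⟨t, mem_inter.2 ⟨ht.1, mem_insert_of_mem ht.2⟩⟩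
    · exfalso
      push Not at hgood
      have hch : ∀ a : ℕ, ∃ G : Finset (Finset ℕ), (a ∈ F0 → (G : Set (Finset ℕ)) ⊆ {F | F ∈ B ∧ a ∉ F} ∧
          ∀ E : Finset ℕ, E.card ≤ K → ∃ F ∈ G, F ∩ E = ∅) := by
        intro a
        by_cases ha : a ∈ F0
        · obtain ⟨G, hG, h2⟩ := hgood a ha
          exact ⟨G, fun _ => ⟨hG, h2⟩⟩
        · exact ⟨∅, fun h => absurd h ha⟩
      choose G hG using hch
      obtain ⟨E, hE, h2⟩ := h (insert F0 (F0.biUnion G)) (by
        intro F hF
        rw [mem_coe, mem_insert, mem_biUnion] at hF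
        rcases hF with rfl | ⟨a, ha, hF⟩
        · exact hF0
        · exact ((hG a ha).1 (mem_coe.2 hF)).1)
      obtain ⟨a, ha⟩ := h2 F0 (mem_insert_self _ _)
      rw [mem_inter] at ha
      obtain ⟨F, hF, hFE⟩ := (hG a ha.1).2 (E.erase a) (by rw [card_erase_of_mem ha.2]; omega)
      obtain ⟨t, ht⟩ := h2 F (mem_insert_of_mem (mem_biUnion.2 ⟨a, ha.1, hF⟩))
      rw [mem_inter] at ht
      have haF : a ∉ F := ((hG a ha.1).1 (mem_coe.2 hF)).2
      have : t ∈ F ∩ E.erase a := by
        rw [mem_inter, mem_erase]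
        exact ⟨ht.1, fun h => haF (h ▸ ht.1), ht.2⟩
      rw [hFE] at this
      exact absurd this (notMem_empty _)

theorem two_le_of {M : Finset ℕ} (hM : Ind2 M) {m : ℕ} (hm : m ∈ M) (h1 : 1 ≤ m) : 2 ≤ m := by
  classical
  by_contra hcon
  have h2 : m = 1 := by omega
  subst h2
  have h3 := hM 0 (fun t => if t = 1 then 1 else 0) (by
    rw [zpow_zero, one_mul]
    apply prod_eq_one
    intro t _
    split_ifs with h
    · rw [h]; simp
    · simp) 1 hm
  simp at h3

open Classical in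
/-- the integers `g`, `log g ≤ Y`, generated by two and `F` -/
noncomputable def GF (F : Finset ℕ) (Y : ℝ) : Finset ℕ :=
  (range (⌊Real.exp Y⌋₊ + 1)).filter (fun g => Gen F g ∧ Real.log g ≤ Y)

theorem mem_GF {F : Finset ℕ} {Y : ℝ} {g : ℕ} (h1 : ∀ m ∈ F, 1 ≤ m) :
    g ∈ GF F Y ↔ Gen F g ∧ Real.log g ≤ Y := by
  classical
  unfold GF
  rw [mem_filter, mem_range]
  refine ⟨fun h => h.2, fun h => ⟨?_, h⟩⟩
  have h2 : (0 : ℝ) < g := by exact_mod_cast h.1.pos h1
  have h3 : (g : ℝ) ≤ Real.exp Y := by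
    rw [← Real.exp_log h2]
    exact Real.exp_le_exp.2 h.2
  have := Nat.le_floor h3
  omega

theorem GF_card {F : Finset ℕ} (h2 : ∀ m ∈ F, 2 ≤ m) {Y : ℝ} (hY : 0 ≤ Y) :
    (GF F Y).card ≤ (⌊2 * Y⌋₊ + 1) ^ (F.card + 1) := by
  classical
  set n := ⌊2 * Y⌋₊ with hn
  have hsub : GF F Y ⊆ (range (n + 1) ×ˢ Fintype.piFinset (fun _ : F => range (n + 1))).image
      (fun t => 2 ^ t.1 * ∏ m : F, (m : ℕ) ^ (t.2 m)) := by
    intro g hg
    rw [mem_GF (fun m hm => by have := h2 m hm; omega)] at hg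
    obtain ⟨⟨a, e, -, hge⟩, hlog⟩ := hg
    have hl2 := Real.log_two_gt_d9
    have hpos : ∀ m ∈ F, (0 : ℝ) < m := fun m hm => by
      have := h2 m hm
      exact_mod_cast (by omega : 0 < m)
    have hlg : Real.log g = a * Real.log 2 + ∑ m ∈ F, e m * Real.log m := by
      rw [hge]
      push_cast
      rw [Real.log_mul (by positivity) (prod_ne_zero_iff.2 fun m hm => (pow_pos (hpos m hm) _).ne'),
        Real.log_pow, Real.log_prod (fun m hm => (pow_pos (hpos m hm) _).ne')]
      congr 1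
      apply sum_congr rfl
      intro m _
      rw [Real.log_pow]
    have hterm : ∀ m ∈ F, 0 ≤ (e m : ℝ) * Real.log m := fun m hm =>
      mul_nonneg (Nat.cast_nonneg _) (Real.log_nonneg (by
        have := h2 m hm
        exact_mod_cast (by omega : 1 ≤ m)))
    have ha : a ≤ n := by
      apply Nat.le_floor
      have h3 : 0 ≤ ∑ m ∈ F, (e m : ℝ) * Real.log m := sum_nonneg hterm
      have h4 : (0 : ℝ) ≤ a := Nat.cast_nonneg _
      nlinarith
    have he : ∀ m ∈ F, e m ≤ n := by
      intro m hm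
      apply Nat.le_floor
      have h3 : (e m : ℝ) * Real.log m ≤ ∑ m ∈ F, (e m : ℝ) * Real.log m :=
        single_le_sum hterm hm
      have h4 : (0 : ℝ) ≤ a * Real.log 2 := by positivity
      have h5 : Real.log 2 ≤ Real.log m := Real.log_le_log (by norm_num) (by exact_mod_cast h2 m hm)
      have h6 : (0 : ℝ) ≤ e m := Nat.cast_nonneg _
      nlinarith
    rw [mem_image]
    refine ⟨(a, fun m => e m), ?_, ?_⟩
    · rw [mem_product, mem_range, Fintype.mem_piFinset]
      refine ⟨by simp only; omega, fun m => ?_⟩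
      rw [mem_range]
      have := he m m.2
      simp only
      omega
    · simp only
      rw [hge]
      congr 1
      exact (Finset.prod_coe_sort F (fun m => m ^ e m))
  refine (card_le_card hsub).trans (card_image_le.trans ?_)
  rw [card_product, card_range, Fintype.card_piFinset]
  simp only [card_range, prod_const, card_univ, Fintype.card_coe]
  rw [pow_succ, mul_comm]

end Pool.Agent.Y892.TB
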