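import Pool.Agent.Y892.TB.C4

/-!
From finite sets to infinite sets, abstract version.
-/

set_option autoImplicit false

open Finset Filter

namespace Pool.Agent.Y892.TB

theorem ev_card (κ : ℝ) (hκ : 0 < κ) (n : ℕ) (C : ℝ) : ∀ᶠ x : ℕ in atTop,
    (((⌊2 * (x : ℝ) ^ (κ / (n + 2))⌋₊ + 1) ^ (n + 1) : ℕ) : ℝ) * C ≤ (x : ℝ) ^ κ := by
  have h3 := tendsto_natCast_atTop_atTop (R := ℝ)
  have e1 : ∀ᶠ x : ℕ in atTop, 3 ^ (n + 1) * |C| ≤ (x : ℝ) ^ (κ / (n + 2)) :=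
    h3.eventually ((tendsto_rpow_atTop (by positivity)).eventually_ge_atTop _)
  filter_upwards [e1, eventually_ge_atTop 1] with x hx1 hx2
  have hx : (1 : ℝ) ≤ x := by exact_mod_cast hx2
  have hx0 : (0 : ℝ) < x := by linarith
  have hY : 1 ≤ (x : ℝ) ^ (κ / (n + 2)) := Real.one_le_rpow hx (by positivity)
  have h4 : ((⌊2 * (x : ℝ) ^ (κ / (n + 2))⌋₊ : ℝ) + 1) ≤ 3 * (x : ℝ) ^ (κ / (n + 2)) := by
    have : (⌊2 * (x : ℝ) ^ (κ / (n + 2))⌋₊ : ℝ) ≤ 2 * (x : ℝ) ^ (κ / (n + 2)) :=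
      Nat.floor_le (by positivity)
    linarith
  push_cast
  calc ((⌊2 * (x : ℝ) ^ (κ / (n + 2))⌋₊ : ℝ) + 1) ^ (n + 1) * C
      ≤ ((⌊2 * (x : ℝ) ^ (κ / (n + 2))⌋₊ : ℝ) + 1) ^ (n + 1) * |C| :=
        mul_le_mul_of_nonneg_left (le_abs_self C) (by positivity)
    _ ≤ (3 * (x : ℝ) ^ (κ / (n + 2))) ^ (n + 1) * |C| :=
        mul_le_mul_of_nonneg_right (pow_le_pow_left₀ (by positivity) h4 _) (abs_nonneg C)
    _ = (3 ^ (n + 1) * |C|) * ((x : ℝ) ^ (κ / (n + 2))) ^ (n + 1) := by rw [mul_pow]; ring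
    _ ≤ (x : ℝ) ^ (κ / (n + 2)) * ((x : ℝ) ^ (κ / (n + 2))) ^ (n + 1) := by gcongr
    _ = ((x : ℝ) ^ (κ / (n + 2))) ^ (n + 2) := by ring
    _ = (x : ℝ) ^ κ := by
        rw [← Real.rpow_natCast, ← Real.rpow_mul hx0.le]
        congr 1
        push_cast
        field_simp

open Classical in
/-- **From finite to infinite sets.** -/
theorem abs_inf (K : ℕ) (κ : ℝ) (hκ : 0 < κ) (Ω : ℕ → Finset ℕ) (P : ℕ → ℕ → Prop) (w : ℕ → ℝ)
    (hw0 : ∀ᶠ x in atTop, 0 < w x)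
    (hw : ∀ C : ℝ, ∀ᶠ x : ℕ in atTop, C * (x : ℝ) ^ (1 - κ) ≤ w x)
    (h : ∀ᶠ x : ℕ in atTop, w x ≤ ((Ω x).card : ℝ) ∧
      ∀ M G : Finset ℕ, Ind2 M → (∀ m ∈ M, 1 ≤ m ∧ (m : ℝ) ≤ (x : ℝ) ^ κ) →
      (G.card : ℝ) ≤ (x : ℝ) ^ κ → (∀ g ∈ G, Real.log g ≤ (x : ℝ) ^ κ) →
      (((Ω x).filter (fun N => ¬ Few K M G (P N))).card : ℝ) ≤ (x : ℝ) ^ (1 - κ))
    (S : Set ℕ) (hS : ∀ M : Finset ℕ, (M : Set ℕ) ⊆ S → Ind2 M) (h1 : ∀ m ∈ S, 1 ≤ m) :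
    ∃ E : Finset ℕ, E.card ≤ K ∧ ∀ F : Finset ℕ, (F : Set ℕ) ⊆ S → Disjoint F E →
      ∃ θ : ℝ, 0 < θ ∧ ∃ᶠ x : ℕ in atTop, θ * w x ≤
        (((Ω x).filter (fun N => ∀ g : ℕ, Gen F g →
          Real.log g ≤ (x : ℝ) ^ (κ / (F.card + 2)) → P N g)).card : ℝ) := by
  obtain ⟨gd, hgd⟩ : ∃ gd : Finset ℕ → ℕ → Finset ℕ, gd = fun F x => (Ω x).filter (fun N =>
    ∀ g : ℕ, Gen F g → Real.log g ≤ (x : ℝ) ^ (κ / (F.card + 2)) → P N g) := ⟨_, rfl⟩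
  obtain ⟨B, hB⟩ : ∃ B : Set (Finset ℕ), B = {F : Finset ℕ | (F : Set ℕ) ⊆ S ∧ ¬ ∃ θ : ℝ, 0 < θ ∧
    ∃ᶠ x : ℕ in atTop, θ * w x ≤ ((gd F x).card : ℝ)} := ⟨_, rfl⟩
  obtain ⟨E, hEK, hE⟩ := hitting K B (by
    intro G hG
    obtain ⟨M, hM⟩ : ∃ M, M = G.biUnion id := ⟨_, rfl⟩
    have hMS : (M : Set ℕ) ⊆ S := by
      intro m hm
      rw [hM, mem_coe, mem_biUnion] at hm
      obtain ⟨F, hF, hmF⟩ := hm
      have h2 := hG (mem_coe.2 hF)
      rw [hB] at h2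
      exact h2.1 (mem_coe.2 hmF)
    have hM2 := hS M hMS
    have hMge : ∀ m ∈ M, 2 ≤ m := fun m hm => two_le_of hM2 hm (h1 m (hMS (mem_coe.2 hm)))
    have hFM : ∀ F ∈ G, F ⊆ M := fun F hF m hm => by
      rw [hM, mem_biUnion]
      exact ⟨F, hF, hm⟩
    obtain ⟨D, hD⟩ : ∃ D : ℝ, D = (G.card : ℝ) + 1 := ⟨_, rfl⟩
    have hD1 : (1 : ℝ) ≤ D := by rw [hD]; have : (0 : ℝ) ≤ G.card := Nat.cast_nonneg _; linarith
    have e1 : ∀ᶠ x : ℕ in atTop, ∀ m ∈ M, (m : ℝ) ≤ (x : ℝ) ^ κ := by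
      rw [Filter.eventually_all_finset]
      intro m _
      exact (tendsto_natCast_atTop_atTop (R := ℝ)).eventually
        ((tendsto_rpow_atTop hκ).eventually_ge_atTop _)
    have e2 : ∀ᶠ x : ℕ in atTop, ∀ F ∈ G,
        (((⌊2 * (x : ℝ) ^ (κ / (F.card + 2))⌋₊ + 1) ^ (F.card + 1) : ℕ) : ℝ) * D ≤ (x : ℝ) ^ κ := by
      rw [Filter.eventually_all_finset]
      intro F _
      exact ev_card κ hκ F.card D
    have e3 : ∀ᶠ x : ℕ in atTop, ∀ F ∈ G, ((gd F x).card : ℝ) < 1 / (4 * D) * w x := by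
      rw [Filter.eventually_all_finset]
      intro F hF
      have h2 := hG (mem_coe.2 hF)
      rw [hB] at h2
      have h3 := h2.2
      push Not at h3
      have h4 := h3 (1 / (4 * D)) (by positivity)
      filter_upwards [h4] with x hx
      linarith
    obtain ⟨x, ⟨hx1, hx2⟩, hx3, hx4, hx5, hx6, hx7, hx8⟩ := (h.and (e1.and (e2.and (e3.and ((hw 4).and
      (hw0.and (eventually_ge_atTop 1))))))).exists
    have hxr : (1 : ℝ) ≤ x := by exact_mod_cast hx8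
    obtain ⟨Gx, hGx⟩ : ∃ Gx, Gx = G.biUnion (fun F => GF F ((x : ℝ) ^ (κ / (F.card + 2)))) := ⟨_, rfl⟩
    have hGxc : (Gx.card : ℝ) ≤ (x : ℝ) ^ κ := by
      have h5 : (Gx.card : ℝ) ≤ ∑ F ∈ G, (((⌊2 * (x : ℝ) ^ (κ / (F.card + 2))⌋₊ + 1) ^ (F.card + 1) : ℕ) : ℝ) := by
        have h6 : Gx.card ≤ ∑ F ∈ G, (⌊2 * (x : ℝ) ^ (κ / (F.card + 2))⌋₊ + 1) ^ (F.card + 1) := by
          rw [hGx]
          exact card_biUnion_le.trans (sum_le_sum fun F hF =>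
            GF_card (F := F) (fun m hm => hMge m (hFM F hF hm))
              (Y := (x : ℝ) ^ (κ / (F.card + 2))) (by positivity))
        exact_mod_cast h6
      have h6 : ∑ F ∈ G, (((⌊2 * (x : ℝ) ^ (κ / (F.card + 2))⌋₊ + 1) ^ (F.card + 1) : ℕ) : ℝ) ≤
          ∑ _F ∈ G, (x : ℝ) ^ κ / D := by
        apply sum_le_sum
        intro F hF
        rw [le_div_iff₀ (by linarith)]
        exact hx4 F hF
      rw [sum_const, nsmul_eq_mul] at h6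
      have h7 : (G.card : ℝ) * ((x : ℝ) ^ κ / D) ≤ (x : ℝ) ^ κ := by
        rw [mul_div_assoc', div_le_iff₀ (by linarith)]
        have h8 : 0 ≤ (x : ℝ) ^ κ := by positivity
        rw [hD]
        nlinarith
      linarith
    have hGxl : ∀ g ∈ Gx, Real.log g ≤ (x : ℝ) ^ κ := by
      intro g hg
      rw [hGx, mem_biUnion] at hg
      obtain ⟨F, hF, hgF⟩ := hg
      rw [mem_GF (fun m hm => by have := hMge m (hFM F hF hm); omega)] at hgF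
      refine hgF.2.trans (Real.rpow_le_rpow_of_exponent_le hxr ?_)
      have h5 : (0 : ℝ) ≤ F.card := Nat.cast_nonneg _
      rw [div_le_iff₀ (by positivity)]
      nlinarith
    have hbad := hx2 M Gx hM2 (fun m hm => ⟨h1 m (hMS (mem_coe.2 hm)), hx3 m hm⟩) hGxc hGxl
    have hex : ∃ N ∈ Ω x, N ∉ (Ω x).filter (fun N => ¬ Few K M Gx (P N)) ∪
        G.biUnion (fun F => gd F x) := by
      by_contra hno
      push Not at hno
      have h5 : (Ω x).card ≤ ((Ω x).filter (fun N => ¬ Few K M Gx (P N))).card +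
          ∑ F ∈ G, (gd F x).card :=
        (card_le_card (fun N hN => hno N hN)).trans ((card_union_le _ _).trans
          (Nat.add_le_add_left card_biUnion_le _))
      have h6 : ((Ω x).card : ℝ) ≤ (((Ω x).filter (fun N => ¬ Few K M Gx (P N))).card : ℝ) +
          ∑ F ∈ G, ((gd F x).card : ℝ) := by exact_mod_cast h5
      have h7 : ∑ F ∈ G, ((gd F x).card : ℝ) ≤ ∑ _F ∈ G, 1 / (4 * D) * w x :=
        sum_le_sum fun F hF => (hx5 F hF).le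
      rw [sum_const, nsmul_eq_mul] at h7
      have h8 : (G.card : ℝ) * (1 / (4 * D) * w x) ≤ 1 / 4 * w x := by
        have h9 : (G.card : ℝ) * (1 / (4 * D)) ≤ 1 / 4 := by
          rw [mul_one_div, div_le_div_iff₀ (by positivity) (by norm_num)]
          rw [hD]
          have : (0 : ℝ) ≤ G.card := Nat.cast_nonneg _
          linarith
        nlinarith
      nlinarith
    obtain ⟨N, hN, hN2⟩ := hex
    rw [mem_union, not_or, mem_filter, not_and, not_not, mem_biUnion] at hN2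
    obtain ⟨E, hEM, hEK, hE⟩ := hN2.1 hN
    refine ⟨E, hEK, fun F hF => ?_⟩
    by_contra hemp
    rw [not_nonempty_iff_eq_empty] at hemp
    apply hN2.2
    refine ⟨F, hF, ?_⟩
    rw [hgd]
    simp only
    rw [mem_filter]
    refine ⟨hN, fun g hgen hlog => hE g ?_ (hgen.mono ?_)⟩
    · rw [hGx, mem_biUnion]
      exact ⟨F, hF, (mem_GF (fun m hm => by have := hMge m (hFM F hF hm); omega)).2 ⟨hgen, hlog⟩⟩
    · intro m hm
      rw [Finset.mem_sdiff]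
      refine ⟨hFM F hF hm, fun hmE => ?_⟩
      have : m ∈ F ∩ E := mem_inter.2 ⟨hm, hmE⟩
      rw [hemp] at this
      exact notMem_empty _ this)
  refine ⟨E, hEK, fun F hF hdis => ?_⟩
  by_contra hcon
  have h2 : F ∈ B := by
    rw [hB]
    refine ⟨hF, ?_⟩
    rw [hgd]
    exact hcon
  obtain ⟨t, ht⟩ := hE F h2
  rw [mem_inter] at ht
  exact Finset.disjoint_left.1 hdis ht.1 ht.2

end Pool.Agent.Y892.TB
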