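import Pool.Agent.Y892.TB.C5

/-!
The theorem for the sifted primes, infinite version.
-/

set_option autoImplicit false

open Finset Filter

namespace Pool.Agent.Y892.TB

open Pool.Agent.Y855

theorem ev_w (A : ℕ) (κ : ℝ) (hκ : 0 < κ) (C : ℝ) : ∀ᶠ x : ℕ in atTop,
    C * (x : ℝ) ^ (1 - κ) ≤ (x : ℝ) / Real.log x ^ A := by
  have h3 := tendsto_natCast_atTop_atTop (R := ℝ)
  have h1 : ∀ᶠ t : ℝ in atTop, ‖Real.log t ^ (A : ℝ)‖ ≤ 1 * ‖t ^ (κ / 2)‖ :=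
    (isLittleO_log_rpow_rpow_atTop (A : ℝ) (by positivity : (0 : ℝ) < κ / 2)).def (by norm_num)
  have h2 : ∀ᶠ t : ℝ in atTop, |C| ≤ t ^ (κ / 2) :=
    (tendsto_rpow_atTop (by positivity)).eventually_ge_atTop _
  filter_upwards [h3.eventually h1, h3.eventually h2, eventually_ge_atTop 3] with x hx1 hx2 hx3
  have hx : (3 : ℝ) ≤ x := by exact_mod_cast hx3
  have hx0 : (0 : ℝ) < x := by linarith
  have hL : 0 < Real.log x := Real.log_pos (by linarith)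
  rw [Real.rpow_natCast, Real.norm_of_nonneg (by positivity), Real.norm_of_nonneg (by positivity),
    one_mul] at hx1
  rw [le_div_iff₀ (by positivity)]
  calc C * (x : ℝ) ^ (1 - κ) * Real.log x ^ A ≤ |C| * (x : ℝ) ^ (1 - κ) * Real.log x ^ A := by
        gcongr
        exact le_abs_self C
    _ ≤ (x : ℝ) ^ (κ / 2) * (x : ℝ) ^ (1 - κ) * (x : ℝ) ^ (κ / 2) := by gcongr
    _ = x := by
        rw [← Real.rpow_add hx0, ← Real.rpow_add hx0]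
        have : κ / 2 + (1 - κ) + κ / 2 = 1 := by ring
        rw [this, Real.rpow_one]

theorem ev_w0 (A : ℕ) : ∀ᶠ x : ℕ in atTop, 0 < (x : ℝ) / Real.log x ^ A := by
  filter_upwards [eventually_ge_atTop 3] with x hx3
  have hx : (3 : ℝ) ≤ x := by exact_mod_cast hx3
  have hL : 0 < Real.log x := Real.log_pos (by linarith)
  positivity

open Classical in
theorem mainC2 : ∃ c κ η : ℝ, ∃ K : ℕ, 0 < c ∧ 0 < κ ∧ 0 < η ∧
    (∀ᶠ x : ℕ in atTop, η * ((x : ℝ) / (Real.log x) ^ 2) ≤ ((T8 x ⌊(x : ℝ) ^ c⌋₊).card : ℝ) ∧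
    ∀ M G : Finset ℕ, Ind2 M → (∀ m ∈ M, 1 ≤ m ∧ (m : ℝ) ≤ (x : ℝ) ^ κ) →
      (G.card : ℝ) ≤ (x : ℝ) ^ κ → (∀ g ∈ G, Real.log g ≤ (x : ℝ) ^ κ) →
      (((T8 x ⌊(x : ℝ) ^ c⌋₊).filter (fun p => ¬ Few K M G (PR p))).card : ℝ) ≤
        (x : ℝ) ^ (1 - κ)) ∧
    ∀ S : Set ℕ, (∀ M : Finset ℕ, (M : Set ℕ) ⊆ S → Ind2 M) → (∀ m ∈ S, 1 ≤ m) →
    ∃ E : Finset ℕ, E.card ≤ K ∧ ∀ F : Finset ℕ, (F : Set ℕ) ⊆ S → Disjoint F E →
      ∃ θ : ℝ, 0 < θ ∧ ∃ᶠ x : ℕ in atTop, θ * ((x : ℝ) / (Real.log x) ^ 2) ≤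
        (((T8 x ⌊(x : ℝ) ^ c⌋₊).filter (fun p => ∀ g : ℕ, Gen F g →
          Real.log g ≤ (x : ℝ) ^ (κ / (F.card + 2)) → PR p g)).card : ℝ) := by
  obtain ⟨c, κ, η, K, hc, hκ, hκ2, hη, h⟩ := mainC
  refine ⟨c, κ, η, K, hc, hκ, hη, h, ?_⟩
  intro S hS h1
  obtain ⟨E, hEK, hE⟩ := abs_inf K κ hκ (fun x => T8 x ⌊(x : ℝ) ^ c⌋₊) PR
    (fun x => η * ((x : ℝ) / (Real.log x) ^ 2))
    ((ev_w0 2).mono fun x hx => mul_pos hη hx)
    (fun C => by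
      filter_upwards [ev_w 2 κ hκ (C / η)] with x hx
      have h2 := mul_le_mul_of_nonneg_left hx hη.le
      refine le_trans (le_of_eq ?_) h2
      field_simp) h S hS h1
  refine ⟨E, hEK, fun F hF hd => ?_⟩
  obtain ⟨θ, hθ, h2⟩ := hE F hF hd
  refine ⟨θ * η, by positivity, h2.mono fun x hx => ?_⟩
  refine le_trans (le_of_eq ?_) hx
  ring

end Pool.Agent.Y892.TB
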