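import Pool.Agent.Y892.TB.C6
import Pool.Agent.Y892.TB.B1

/-!
Windows with many primes: the general theorem.
-/

set_option autoImplicit false

open Finset Filter

namespace Pool.Agent.Y892.TB

open Pool.Agent.Y855

/-- `2 g ^ 2` is a primitive root modulo all primes in the window -/
def WPR (H N g : ℕ) : Prop := ∀ p ∈ Ioc N (N + H), p.Prime → PR p g

open Classical in
theorem windowsC (m : ℕ) : ∃ H A K : ℕ, ∃ c κ : ℝ, 0 < c ∧ 0 < κ ∧ κ ≤ 1 / 2 ∧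
    ∀ᶠ x : ℕ in atTop,
    (x : ℝ) / Real.log x ^ A ≤ (((Icc 1 x).filter (Win m H c x)).card : ℝ) ∧
    ∀ M G : Finset ℕ, Ind2 M → (∀ m ∈ M, 1 ≤ m ∧ (m : ℝ) ≤ (x : ℝ) ^ κ) →
      (G.card : ℝ) ≤ (x : ℝ) ^ κ → (∀ g ∈ G, Real.log g ≤ (x : ℝ) ^ κ) →
      ((((Icc 1 x).filter (Win m H c x)).filter (fun N => ¬ Few K M G (WPR H N))).card : ℝ) ≤
        (x : ℝ) ^ (1 - κ) := by
  obtain ⟨δ, hδ, H, A, hB⟩ := Pool.Agent.Y848.MS.thmB_core m
  obtain ⟨c, hc, hcδ, hc1⟩ : ∃ c : ℝ, 0 < c ∧ c ≤ δ ∧ c ≤ 1 :=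
    ⟨min δ 1, lt_min hδ one_pos, min_le_left _ _, min_le_right _ _⟩
  have hc20 : 0 < c / 2 := by positivity
  have hc21 : c / 2 < 1 := by linarith
  obtain ⟨K₀, hK₀⟩ : ∃ K₀ : ℕ, K₀ = ⌈1 / (c / 2)⌉₊ := ⟨_, rfl⟩
  obtain ⟨κ, hκ⟩ : ∃ κ : ℝ, κ = ka (c / 2) := ⟨_, rfl⟩
  obtain ⟨k, hk⟩ : ∃ k : ℕ, k = kk (c / 2) := ⟨_, rfl⟩
  have hκ0 : 0 < κ := hκ ▸ ka_pos hc20
  have hκk : (3 * (k : ℝ) + 3) * κ = (c / 2) / 8 := by rw [hk, hκ]; exact ka_le hc20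
  have hk0 : (0 : ℝ) ≤ k := Nat.cast_nonneg k
  have hκc : κ ≤ (c / 2) / 8 := by nlinarith
  refine ⟨H, A, H * (K₀ * k), c, κ, hc, hκ0, by linarith, ?_⟩
  have h3 := tendsto_natCast_atTop_atTop (R := ℝ)
  have hshift : Tendsto (fun x : ℕ => x + H) atTop atTop := tendsto_add_atTop_nat H
  have e1 : ∀ᶠ x : ℕ in atTop, (8 : ℝ) * (H + 1) ≤ (x : ℝ) ^ ((c / 2) / 8) :=
    h3.eventually ((tendsto_rpow_atTop (by positivity)).eventually_ge_atTop _)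
  filter_upwards [h3.eventually hB, hshift.eventually (ExV_real (c / 2) hc20 hc21), e1,
    eventually_ge_atTop (H + 2)] with x hx1 hx2 hx3 hx4
  have hxn : 2 ≤ x := by omega
  have hx : (2 : ℝ) ≤ x := by exact_mod_cast hxn
  have hx0 : (0 : ℝ) < x := by linarith
  have hx2' : 2 * x ≤ x ^ 2 := by nlinarith
  constructor
  · refine hx1.trans ?_
    have h4 : (Icc 1 ⌊(x : ℝ)⌋₊).filter (fun N => Pool.Agent.Y848.MS.GoodB m H δ x N) ⊆
        (Icc 1 x).filter (Win m H c x) := by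
      intro N hN
      rw [mem_filter, Nat.floor_natCast] at hN
      rw [mem_filter]
      refine ⟨hN.1, hN.2.1, fun p hp hpp => ⟨(hN.2.2 p hp hpp).1, fun q hq hqd => ?_⟩⟩
      refine lt_of_le_of_lt ?_ ((hN.2.2 p hp hpp).2.1 q hq hqd)
      exact Real.rpow_le_rpow_of_exponent_le (by linarith) hcδ
    exact_mod_cast card_le_card h4
  intro M G hM hMb hGc hGl
  obtain ⟨X, hX⟩ : ∃ X : ℕ, X = x + H := ⟨_, rfl⟩
  have hXx : x ≤ X := by omega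
  have hXxr : (x : ℝ) ≤ X := by exact_mod_cast hXx
  have hX2 : (X : ℝ) ≤ 2 * x := by
    have : X ≤ 2 * x := by omega
    exact_mod_cast this
  have hX0 : (0 : ℝ) < X := by linarith
  obtain ⟨z, hz⟩ : ∃ z : ℕ, z = ⌊(X : ℝ) ^ (c / 2)⌋₊ := ⟨_, rfl⟩
  obtain ⟨R, hR⟩ : ∃ R : ℕ, R = ⌊(X : ℝ) ^ κ⌋₊ := ⟨_, rfl⟩
  have hpow : (x : ℝ) ^ κ ≤ (X : ℝ) ^ κ := Real.rpow_le_rpow hx0.le hXxr hκ0.le
  obtain ⟨G', hG'⟩ : ∃ G', G' = G.filter (fun g => 1 ≤ g) := ⟨_, rfl⟩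
  have hEx := hx2 G' (by
    rw [← hX, ← hκ]
    refine le_trans ?_ (hGc.trans hpow)
    rw [hG']
    exact_mod_cast card_filter_le _ _) (by
    intro g hg
    rw [hG', mem_filter] at hg
    rw [← hX, ← hκ]
    exact ⟨hg.2, (hGl g hg.1).trans hpow⟩)
  rw [← hX, ← hk, ← hz] at hEx
  have hMR : ∀ q ∈ M, 1 ≤ q ∧ q ≤ R := fun q hq =>
    ⟨(hMb q hq).1, hR ▸ Nat.le_floor ((hMb q hq).2.trans hpow)⟩
  have hRX : (R : ℝ) ≤ (X : ℝ) ^ κ := hR ▸ Nat.floor_le (by positivity)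
  have hK : X ≤ (z + 1) ^ K₀ := pow_cond hc20 (by omega) hz hK₀
  -- the exceptional windows
  have hsub : ((Icc 1 x).filter (Win m H c x)).filter (fun N =>
        ¬ Few (H * (K₀ * k)) M G (WPR H N)) ⊆
      (ExV X z k (VG G') ∪ Icc 1 R).biUnion (fun p => Ico (p - H) p) := by
    intro N hN
    rw [mem_filter, mem_filter, mem_Icc] at hN
    obtain ⟨⟨⟨hN1, hNx⟩, hW⟩, hF⟩ := hN
    by_contra hcon
    apply hF
    have hpt : ∀ p ∈ Ioc N (N + H), p.Prime →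
        ∃ E ⊆ M, E.card ≤ K₀ * k ∧ ∀ g ∈ G', Gen (M \ E) g → PR p g := by
      intro p hp hpp
      have hpW : p ∉ ExV X z k (VG G') ∪ Icc 1 R := by
        intro hpE
        apply hcon
        rw [mem_biUnion]
        refine ⟨p, hpE, ?_⟩
        rw [mem_Ioc] at hp
        rw [mem_Ico]
        omega
      rw [mem_union, not_or, mem_Icc] at hpW
      have hT := mem_T8_of hc (by omega) (by omega) hNx hx2' hW hp hpp
      rw [← hX, ← hz] at hT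
      refine pointwise X z k K₀ M G' hM (fun q hq => (hMR q hq).1) hK hT hpW.1 (fun q hq => ?_)
      have h4 := (hMR q hq).2
      have := hpp.one_le
      omega
    have hch : ∀ p : ℕ, ∃ E ⊆ M, E.card ≤ K₀ * k ∧ (p ∈ Ioc N (N + H) → p.Prime →
        ∀ g ∈ G', Gen (M \ E) g → PR p g) := by
      intro p
      by_cases hp : p ∈ Ioc N (N + H) ∧ p.Prime
      · obtain ⟨E, h4, h5, h6⟩ := hpt p hp.1 hp.2
        exact ⟨E, h4, h5, fun _ _ => h6⟩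
      · exact ⟨∅, empty_subset _, by simp, fun h4 h5 => absurd ⟨h4, h5⟩ hp⟩
    choose E hEM hEc hE using hch
    refine ⟨(Ioc N (N + H)).biUnion E, ?_, ?_, ?_⟩
    · intro t ht
      rw [mem_biUnion] at ht
      obtain ⟨p, -, ht⟩ := ht
      exact hEM p ht
    · calc ((Ioc N (N + H)).biUnion E).card ≤ ∑ p ∈ Ioc N (N + H), (E p).card := card_biUnion_le
        _ ≤ ∑ _p ∈ Ioc N (N + H), K₀ * k := sum_le_sum fun p _ => hEc p
        _ = H * (K₀ * k) := by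
            rw [sum_const, smul_eq_mul, Nat.card_Ioc, Nat.add_sub_cancel_left]
    · intro g hg hgen p hp hpp
      refine hE p hp hpp g ?_ (hgen.mono ?_)
      · rw [hG', mem_filter]
        exact ⟨hg, hgen.pos fun m hm => (hMb m (sdiff_subset hm)).1⟩
      · apply sdiff_subset_sdiff subset_rfl
        intro t ht
        rw [mem_biUnion]
        exact ⟨p, hp, ht⟩
  have h4 : ((((Icc 1 x).filter (Win m H c x)).filter (fun N =>
        ¬ Few (H * (K₀ * k)) M G (WPR H N))).card : ℝ) ≤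
      ((ExV X z k (VG G')).card + R) * H := by
    have h5 := (card_le_card hsub).trans (card_biUnion_le.trans (sum_le_card_nsmul _ _ H
      (fun p _ => by rw [Nat.card_Ico]; omega)))
    rw [smul_eq_mul] at h5
    have h6 : (ExV X z k (VG G') ∪ Icc 1 R).card ≤ (ExV X z k (VG G')).card + R := by
      refine (card_union_le _ _).trans ?_
      rw [Nat.card_Icc, Nat.add_sub_cancel]
    have h7 := h5.trans (Nat.mul_le_mul_right H h6)
    exact_mod_cast h7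
  refine h4.trans ?_
  have hc8 : c / 2 / 4 = c / 8 := by ring
  have h5 : (X : ℝ) ^ (1 - c / 2 / 4) ≤ 2 * (x : ℝ) ^ (1 - c / 8) := by
    rw [hc8]
    calc (X : ℝ) ^ (1 - c / 8) ≤ (2 * (x : ℝ)) ^ (1 - c / 8) :=
          Real.rpow_le_rpow hX0.le hX2 (by linarith)
      _ = 2 ^ (1 - c / 8) * (x : ℝ) ^ (1 - c / 8) := Real.mul_rpow (by norm_num) hx0.le
      _ ≤ 2 * (x : ℝ) ^ (1 - c / 8) := by
          apply mul_le_mul_of_nonneg_right _ (by positivity)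
          calc (2 : ℝ) ^ (1 - c / 8) ≤ 2 ^ (1 : ℝ) :=
                Real.rpow_le_rpow_of_exponent_le (by norm_num) (by linarith)
            _ = 2 := Real.rpow_one _
  have h6 : (R : ℝ) ≤ 2 * (x : ℝ) ^ (1 - c / 8) := by
    refine (hRX.trans ?_).trans h5
    apply Real.rpow_le_rpow_of_exponent_le (by linarith)
    linarith
  have h7 : ((ExV X z k (VG G')).card : ℝ) ≤ 2 * (x : ℝ) ^ (1 - c / 8) := hEx.trans h5
  have hxp : 0 < (x : ℝ) ^ (1 - c / 8) := by positivity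
  have hH0 : (0 : ℝ) ≤ H := Nat.cast_nonneg H
  calc (((ExV X z k (VG G')).card : ℝ) + R) * H
      ≤ (2 * (x : ℝ) ^ (1 - c / 8) + 2 * (x : ℝ) ^ (1 - c / 8)) * H := by gcongr
    _ ≤ (8 * (H + 1)) * (x : ℝ) ^ (1 - c / 8) := by nlinarith
    _ ≤ (x : ℝ) ^ ((c / 2) / 8) * (x : ℝ) ^ (1 - c / 8) :=
        mul_le_mul_of_nonneg_right hx3 hxp.le
    _ = (x : ℝ) ^ ((c / 2) / 8 + (1 - c / 8)) := by rw [← Real.rpow_add hx0]
    _ ≤ (x : ℝ) ^ (1 - κ) := by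
        apply Real.rpow_le_rpow_of_exponent_le (by linarith)
        linarith

open Classical in
theorem windowsC2 (m : ℕ) : ∃ H A K : ℕ, ∃ c κ : ℝ, 0 < c ∧ 0 < κ ∧
    (∀ᶠ x : ℕ in atTop,
    (x : ℝ) / Real.log x ^ A ≤ (((Icc 1 x).filter (Win m H c x)).card : ℝ) ∧
    ∀ M G : Finset ℕ, Ind2 M → (∀ m ∈ M, 1 ≤ m ∧ (m : ℝ) ≤ (x : ℝ) ^ κ) →
      (G.card : ℝ) ≤ (x : ℝ) ^ κ → (∀ g ∈ G, Real.log g ≤ (x : ℝ) ^ κ) →
      ((((Icc 1 x).filter (Win m H c x)).filter (fun N => ¬ Few K M G (WPR H N))).card : ℝ) ≤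
        (x : ℝ) ^ (1 - κ)) ∧
    ∀ S : Set ℕ, (∀ M : Finset ℕ, (M : Set ℕ) ⊆ S → Ind2 M) → (∀ m ∈ S, 1 ≤ m) →
    ∃ E : Finset ℕ, E.card ≤ K ∧ ∀ F : Finset ℕ, (F : Set ℕ) ⊆ S → Disjoint F E →
      ∃ θ : ℝ, 0 < θ ∧ ∃ᶠ x : ℕ in atTop, θ * ((x : ℝ) / (Real.log x) ^ A) ≤
        ((((Icc 1 x).filter (Win m H c x)).filter (fun N => ∀ g : ℕ, Gen F g →
          Real.log g ≤ (x : ℝ) ^ (κ / (F.card + 2)) → WPR H N g)).card : ℝ) := by
  obtain ⟨H, A, K, c, κ, hc, hκ, hκ2, h⟩ := windowsC m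
  refine ⟨H, A, K, c, κ, hc, hκ, h, ?_⟩
  intro S hS h1
  exact abs_inf K κ hκ (fun x => (Icc 1 x).filter (Win m H c x)) (WPR H)
    (fun x => (x : ℝ) / (Real.log x) ^ A) (ev_w0 A) (fun C => ev_w A κ hκ C) h S hS h1

end Pool.Agent.Y892.TB
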